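import Mathlib

/-! A counting lemma for families of fibres. -/

namespace Pool.Agent.Helper73_EG

open Finset

section
variable {α σ : Type*} [DecidableEq α] [DecidableEq σ]

/-- the pairs contained in some fibre -/
def prs (U : Finset α) (C : α → Finset σ) : Finset (Finset σ) := U.biUnion (fun u => (C u).powersetCard 2)

/-- the rows whose fibre contains `π` -/
def rws (U : Finset α) (C : α → Finset σ) (π : Finset σ) : Finset α := U.filter (fun u => π ⊆ C u)

theorem mem_prs {U : Finset α} {C : α → Finset σ} {π : Finset σ} :
    π ∈ prs U C ↔ ∃ u ∈ U, π ⊆ C u ∧ π.card = 2 := by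
  unfold prs
  simp only [mem_biUnion, mem_powersetCard]

theorem filter_prs {U : Finset α} {C : α → Finset σ} {u : α} (hu : u ∈ U) :
    (prs U C).filter (fun π => π ⊆ C u) = (C u).powersetCard 2 := by
  ext π
  rw [mem_filter, mem_prs, mem_powersetCard]
  constructor
  · rintro ⟨⟨_, _, _, h⟩, h'⟩
    exact ⟨h', h⟩
  · rintro ⟨h, h'⟩
    exact ⟨⟨u, hu, h, h'⟩, h⟩

theorem double_count (U : Finset α) (C : α → Finset σ) (Q : Finset (Finset σ)) :
    ∑ π ∈ Q, (rws U C π).card = ∑ u ∈ U, (Q.filter (fun π => π ⊆ C u)).card := by
  unfold rws
  simp only [card_filter]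
  exact sum_comm

theorem choose_two_ge (f : ℕ) (hf : 1 ≤ f) : f ≤ f.choose 2 + 1 := by
  induction f with
  | zero => omega
  | succ n ih =>
    rcases Nat.eq_zero_or_pos n with rfl | hn
    · simp
    · have h1 := ih hn
      have h2 : (n + 1).choose 2 = n + n.choose 2 := by
        rw [Nat.choose_succ_succ' n 1, Nat.choose_one_right]
      omega

theorem choose_two_ge' (f : ℕ) (hf : 3 ≤ f) : f ≤ f.choose 2 := by
  obtain ⟨n, rfl⟩ : ∃ n, f = n + 1 := ⟨f - 1, by omega⟩
  have h1 := choose_two_ge n (by omega)
  have h2 : (n + 1).choose 2 = n + n.choose 2 := by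
    rw [Nat.choose_succ_succ' n 1, Nat.choose_one_right]
  omega

/-- **Counting lemma.** -/
theorem count (U : Finset α) (C : α → Finset σ) (g Λ : ℕ) (a : Finset σ → ℕ) (hg : 1 ≤ g)
    (hC : ∀ u ∈ U, 1 ≤ (C u).card) (hsum : ∑ u ∈ U, (C u).card ≤ 4 * g + 3)
    (h1 : ∀ π ∈ prs U C, min (rws U C π).card g ≤ a π)
    (h2 : ∀ π ∈ prs U C, (rws U C π).card ≤ a π + Λ) :
    ∑ u ∈ U, (C u).card ≤ ∑ π ∈ prs U C, a π + Λ + U.card := by
  classical
  set P := prs U C with hP
  set n : Finset σ → ℕ := fun π => (rws U C π).card with hn
  set B := P.filter (fun π => g + 1 ≤ n π) with hB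
  have hBP : B ⊆ P := filter_subset _ _
  have hnU : ∀ π, n π ≤ U.card := fun π => card_le_card (filter_subset _ _)
  -- for each row the number of pairs
  have hrow : ∀ u ∈ U, (P.filter (fun π => π ⊆ C u)).card = (C u).card.choose 2 := by
    intro u hu
    rw [hP, filter_prs hu, card_powersetCard]
  have hsplit : ∀ u, (P.filter (fun π => π ⊆ C u)).card =
      ((P \ B).filter (fun π => π ⊆ C u)).card + (B.filter (fun π => π ⊆ C u)).card := by
    intro u
    rw [← card_union_of_disjoint (disjoint_filter_filter (sdiff_disjoint)), ← filter_union,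
      sdiff_union_of_subset hBP]
  have hS0 : ∑ π ∈ P \ B, n π ≤ ∑ π ∈ P \ B, a π := by
    refine sum_le_sum fun π hπ => ?_
    rw [mem_sdiff, hB, mem_filter] at hπ
    have h3 := h1 π hπ.1
    have h4 : ¬ (g + 1 ≤ n π) := fun h => hπ.2 ⟨hπ.1, h⟩
    have h5 : min (rws U C π).card g = n π := min_eq_left (by simp only [hn] at h4 ⊢; omega)
    rw [h5] at h3
    exact h3
  have hsumP : ∑ π ∈ P, a π = ∑ π ∈ P \ B, a π + ∑ π ∈ B, a π := (sum_sdiff hBP).symm
  have hdc : ∑ π ∈ P \ B, n π = ∑ u ∈ U, ((P \ B).filter (fun π => π ⊆ C u)).card := double_count U C _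
  have hfU : ∑ u ∈ U, 1 = U.card := by simp
  rcases B.eq_empty_or_nonempty with hB0 | hBne
  · -- no big pair
    have h3 : ∑ u ∈ U, (C u).card ≤ ∑ u ∈ U, (((P \ B).filter (fun π => π ⊆ C u)).card + 1) := by
      refine sum_le_sum fun u hu => ?_
      have h4 := hrow u hu
      have h5 := hsplit u
      rw [hB0, filter_empty, card_empty] at h5
      have h6 := choose_two_ge _ (hC u hu)
      rw [hB0]
      omega
    rw [sum_add_distrib, hfU, ← hdc] at h3
    omega
  · obtain ⟨π0, hπ0, hmax⟩ := exists_max_image B n hBne
    have hπ0P := hBP hπ0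
    have hn0 : g + 1 ≤ n π0 := (mem_filter.1 hπ0).2
    have hBa : (B.card - 1) * g + a π0 ≤ ∑ π ∈ B, a π := by
      rw [← add_sum_erase B a hπ0, add_comm]
      refine Nat.add_le_add_left ?_ _
      rw [← card_erase_of_mem hπ0, ← smul_eq_mul]
      refine card_nsmul_le_sum _ _ _ fun π hπ => ?_
      have h3 := mem_of_mem_erase hπ
      have h4 := h1 π (hBP h3)
      have h5 := (mem_filter.1 h3).2
      simp only [hn] at h5
      rw [min_eq_right (by omega)] at h4
      exact h4
    have ha0 : n π0 ≤ a π0 + Λ := h2 π0 hπ0P
    have hmain : ∑ π ∈ P \ B, n π + (B.card - 1) * g + n π0 ≤ ∑ π ∈ P, a π + Λ := by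
      rw [hsumP]; omega
    have hb1 : 1 ≤ B.card := card_pos.2 hBne
    have hU0 : n π0 ≤ U.card := hnU π0
    -- rows containing a member of `P` have fibres with at least two elements
    have hf2 : ∀ π ∈ P, ∀ u ∈ U, π ⊆ C u → 2 ≤ (C u).card := by
      intro π hπ u _ hs
      rw [hP, mem_prs] at hπ
      obtain ⟨_, _, _, h⟩ := hπ
      rw [← h]
      exact card_le_card hs
    rcases Nat.lt_or_ge B.card 2 with hb | hb
    · -- exactly one big pair
      have hb' : B.card = 1 := by omega
      obtain ⟨π1, hπ1⟩ := card_eq_one.1 hb'
      have h01 : π0 = π1 := by rw [hπ1, mem_singleton] at hπ0; exact hπ0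
      subst h01
      have h3 : ∑ u ∈ U, (C u).card ≤ ∑ u ∈ U, (((P \ B).filter (fun π => π ⊆ C u)).card +
          (B.filter (fun π => π ⊆ C u)).card + 1) := by
        refine sum_le_sum fun u hu => ?_
        have h4 := hrow u hu
        have h5 := hsplit u
        have h6 := choose_two_ge _ (hC u hu)
        omega
      rw [sum_add_distrib, sum_add_distrib, hfU, ← hdc, ← double_count U C B] at h3
      have h7 : ∑ π ∈ B, (rws U C π).card = n π0 := by rw [hπ1, sum_singleton]
      rw [h7] at h3
      rw [hb'] at hmain
      simp only [Nat.sub_self, Nat.zero_mul, Nat.add_zero] at hmain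
      omega
    rcases Nat.lt_or_ge B.card 3 with hb3 | hb3
    · -- exactly two big pairs
      have hb' : B.card = 2 := by omega
      obtain ⟨π1, hπ1, h10⟩ : ∃ π1 ∈ B, π1 ≠ π0 := by
        by_contra hcon
        push Not at hcon
        have : B ⊆ {π0} := fun x hx => by rw [mem_singleton]; exact hcon x hx
        have := card_le_card this
        rw [card_singleton] at this
        omega
      have hB2 : B = {π0, π1} := by
        symm
        apply eq_of_subset_of_card_le
        · intro x hx
          rw [mem_insert, mem_singleton] at hx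
          rcases hx with rfl | rfl
          · exact hπ0
          · exact hπ1
        · rw [hb', card_pair h10.symm]
      set V := U.filter (fun u => π0 ⊆ C u ∨ π1 ⊆ C u) with hV
      have h3 : ∑ u ∈ U, (C u).card ≤ ∑ u ∈ U, (((P \ B).filter (fun π => π ⊆ C u)).card + 1 +
          (if (π0 ⊆ C u ∨ π1 ⊆ C u) then 1 else 0)) := by
        refine sum_le_sum fun u hu => ?_
        have h4 := hrow u hu
        have h5 := hsplit u
        have h6 := choose_two_ge _ (hC u hu)
        split_ifs with hcase
        · have hbu : (B.filter (fun π => π ⊆ C u)).card ≤ 2 := by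
            rw [← hb']; exact card_le_card (filter_subset _ _)
          have hfu : 2 ≤ (C u).card := by
            rcases hcase with h | h
            · exact hf2 π0 hπ0P u hu h
            · exact hf2 π1 (hBP hπ1) u hu h
          rcases Nat.lt_or_ge (C u).card 3 with h7 | h7
          · omega
          · have h8 := choose_two_ge' _ h7
            omega
        · have hbu : B.filter (fun π => π ⊆ C u) = ∅ := by
            rw [filter_eq_empty_iff]
            intro x hx
            rw [hB2, mem_insert, mem_singleton] at hx
            rcases hx with rfl | rfl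
            · exact fun h => hcase (Or.inl h)
            · exact fun h => hcase (Or.inr h)
          rw [hbu, card_empty] at h5
          omega
      rw [sum_add_distrib, sum_add_distrib, hfU, ← hdc, ← card_filter] at h3
      -- the size of `V`
      have hVle : V.card ≤ n π0 + g := by
        by_contra hcon
        push Not at hcon
        set X := U.filter (fun u => ¬ π0 ⊆ C u ∧ π1 ⊆ C u) with hX
        set Y := U.filter (fun u => π0 ⊆ C u ∧ ¬ π1 ⊆ C u) with hY
        set Zz := U.filter (fun u => π0 ⊆ C u ∧ π1 ⊆ C u) with hZ
        have e0 : n π0 = Y.card + Zz.card := by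
          simp only [hn, rws]
          rw [← card_union_of_disjoint]
          · congr 1
            ext u
            simp only [hY, hZ, mem_union, mem_filter]
            tauto
          · rw [disjoint_left]
            intro u h h'
            rw [mem_filter] at h h'
            exact h.2.2 h'.2.2
        have e1 : n π1 = X.card + Zz.card := by
          simp only [hn, rws]
          rw [← card_union_of_disjoint]
          · congr 1
            ext u
            simp only [hX, hZ, mem_union, mem_filter]
            tauto
          · rw [disjoint_left]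
            intro u h h'
            rw [mem_filter] at h h'
            exact h.2.1 h'.2.1
        have e2 : V.card = n π0 + X.card := by
          simp only [hn, rws]
          rw [← card_union_of_disjoint]
          · congr 1
            ext u
            simp only [hX, hV, mem_union, mem_filter]
            tauto
          · rw [disjoint_left]
            intro u h h'
            rw [mem_filter] at h h'
            exact h'.2.1 h.2
        have e3 := hmax π1 hπ1
        have e4 : 2 * V.card ≤ ∑ u ∈ U, (C u).card := by
          calc 2 * V.card = ∑ u ∈ V, 2 := by rw [sum_const, smul_eq_mul, mul_comm]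
            _ ≤ ∑ u ∈ V, (C u).card := by
                refine sum_le_sum fun u hu => ?_
                rw [hV, mem_filter] at hu
                rcases hu.2 with h | h
                · exact hf2 π0 hπ0P u hu.1 h
                · exact hf2 π1 (hBP hπ1) u hu.1 h
            _ ≤ ∑ u ∈ U, (C u).card := sum_le_sum_of_subset (filter_subset _ _)
        omega
      rw [hb'] at hmain
      have : V.card = #{i ∈ U | π0 ⊆ C i ∨ π1 ⊆ C i} := rfl
      omega
    rcases Nat.lt_or_ge B.card 4 with hb4 | hb4
    · -- exactly three big pairs
      have hb' : B.card = 3 := by omega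
      rw [hb'] at hmain
      rcases Nat.lt_or_ge (n π0 + U.card) (2 * g + 3) with h3 | h3
      · have hUg : U.card = g + 1 := by omega
        have hng : n π0 = g + 1 := by omega
        rcases Nat.lt_or_ge (∑ u ∈ U, (C u).card) (4 * g + 3) with h4 | h4
        · omega
        · -- some fibre has four elements
          obtain ⟨u, hu, hfu⟩ : ∃ u ∈ U, 4 ≤ (C u).card := by
            by_contra hcon
            push Not at hcon
            have : ∑ u ∈ U, (C u).card ≤ ∑ u ∈ U, 3 := sum_le_sum fun u hu => by
              have := hcon u hu; omega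
            rw [sum_const, smul_eq_mul, hUg] at this
            omega
          have h5 := hrow u hu
          have h6 := hsplit u
          have h7 : (B.filter (fun π => π ⊆ C u)).card ≤ 3 := by
            rw [← hb']; exact card_le_card (filter_subset _ _)
          have h8 := choose_two_ge' _ (show 3 ≤ (C u).card by omega)
          have h9 : 1 ≤ ((P \ B).filter (fun π => π ⊆ C u)).card := by omega
          have h10 : ((P \ B).filter (fun π => π ⊆ C u)).card ≤
              ∑ u ∈ U, ((P \ B).filter (fun π => π ⊆ C u)).card :=
            single_le_sum (f := fun u => ((P \ B).filter (fun π => π ⊆ C u)).card) (fun _ _ => Nat.zero_le _) hu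
          rw [← hdc] at h10
          omega
      · omega
    · -- at least four big pairs
      have h3 : 3 * g ≤ (B.card - 1) * g := Nat.mul_le_mul_right g (by omega)
      omega

end

end Pool.Agent.Helper73_EG
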