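import Mathlib

/-! The combinatorial core: labels with levels and windows. -/

namespace Pool.Agent.Helper73_EG

open Finset

set_option linter.unusedSectionVars false

section
variable {α L W : Type*} [DecidableEq α] [DecidableEq L] [DecidableEq W]

/-- the set of labels used on `U` -/
def labs (lam : α → α → L) (U : Finset α) : Finset L := U.offDiag.image (fun p => lam p.1 p.2)

/-- every subset `V` of `U` receives at least `|V| - 1` labels -/
def Good (lam : α → α → L) (U : Finset α) : Prop := ∀ V ⊆ U, V.card ≤ (labs lam V).card + 1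

theorem Good.mono {lam : α → α → L} {U V : Finset α} (h : Good lam U) (hV : V ⊆ U) : Good lam V :=
  fun X hX => h X (hX.trans hV)

theorem mem_labs {lam : α → α → L} {U : Finset α} {l : L} :
    l ∈ labs lam U ↔ ∃ u ∈ U, ∃ v ∈ U, u ≠ v ∧ lam u v = l := by
  unfold labs
  simp only [mem_image, mem_offDiag, Prod.exists]
  constructor
  · rintro ⟨u, v, ⟨hu, hv, huv⟩, h⟩
    exact ⟨u, hu, v, hv, huv, h⟩
  · rintro ⟨u, hu, v, hv, huv, h⟩
    exact ⟨u, v, ⟨hu, hv, huv⟩, h⟩

theorem labs_mono {lam : α → α → L} {U V : Finset α} (hV : V ⊆ U) : labs lam V ⊆ labs lam U := by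
  intro l hl
  rw [mem_labs] at hl ⊢
  obtain ⟨u, hu, v, hv, h⟩ := hl
  exact ⟨u, hV hu, v, hV hv, h⟩

/-- pairs (window of level `j - 1`, label) for the labels of level `j` -/
def Z (lam : α → α → L) (lev : L → ℕ) (w : ℕ → α → W) (j : ℕ) (U : Finset α) : Finset (W × L) :=
  (U.offDiag.filter (fun p => lev (lam p.1 p.2) = j)).image (fun p => (w (j - 1) p.1, lam p.1 p.2))

theorem mem_Z {lam : α → α → L} {lev : L → ℕ} {w : ℕ → α → W} {j : ℕ} {U : Finset α} {z : W × L} :
    z ∈ Z lam lev w j U ↔ ∃ u ∈ U, ∃ v ∈ U, u ≠ v ∧ lev (lam u v) = j ∧ w (j - 1) u = z.1 ∧ lam u v = z.2 := by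
  unfold Z
  simp only [mem_image, mem_filter, mem_offDiag, Prod.exists]
  constructor
  · rintro ⟨u, v, ⟨⟨hu, hv, huv⟩, hl⟩, h⟩
    exact ⟨u, hu, v, hv, huv, hl, congrArg Prod.fst h, congrArg Prod.snd h⟩
  · rintro ⟨u, hu, v, hv, huv, hl, h1, h2⟩
    exact ⟨u, v, ⟨⟨hu, hv, huv⟩, hl⟩, Prod.ext h1 h2⟩

theorem Z_mono {lam : α → α → L} {lev : L → ℕ} {w : ℕ → α → W} {j : ℕ} {U V : Finset α} (hV : V ⊆ U) :
    Z lam lev w j V ⊆ Z lam lev w j U := by
  intro z hz
  rw [mem_Z] at hz ⊢
  obtain ⟨u, hu, v, hv, h⟩ := hz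
  exact ⟨u, hV hu, v, hV hv, h⟩

/-- the counting function -/
def A (lam : α → α → L) (lev : L → ℕ) (w : ℕ → α → W) (s i : ℕ) (U : Finset α) : ℕ :=
  (U.image (w s)).card + ∑ j ∈ Finset.Ioc i s, (Z lam lev w j U).card

theorem A_mono {lam : α → α → L} {lev : L → ℕ} {w : ℕ → α → W} {s i : ℕ} {U V : Finset α} (hV : V ⊆ U) :
    A lam lev w s i V ≤ A lam lev w s i U := by
  unfold A
  refine Nat.add_le_add (card_le_card (image_subset_image hV)) (sum_le_sum fun j _ => card_le_card (Z_mono hV))

/-- windows and levels: `w j u = w j v` iff `j` is at most the level of the label of `u, v` -/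
structure Sys (lam : α → α → L) (lev : L → ℕ) (w : ℕ → α → W) (s : ℕ) (U : Finset α) : Prop where
  le : ∀ u ∈ U, ∀ v ∈ U, u ≠ v → lev (lam u v) ≤ s
  iff : ∀ u ∈ U, ∀ v ∈ U, u ≠ v → ∀ j ≤ s, (w j u = w j v ↔ j ≤ lev (lam u v))

theorem Sys.mono {lam : α → α → L} {lev : L → ℕ} {w : ℕ → α → W} {s : ℕ} {U V : Finset α}
    (h : Sys lam lev w s U) (hV : V ⊆ U) : Sys lam lev w s V :=
  ⟨fun u hu v hv => h.le u (hV hu) v (hV hv), fun u hu v hv => h.iff u (hV hu) v (hV hv)⟩

theorem Sys.refine {lam : α → α → L} {lev : L → ℕ} {w : ℕ → α → W} {s : ℕ} {U : Finset α}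
    (h : Sys lam lev w s U) {u v : α} (hu : u ∈ U) (hv : v ∈ U) {i j : ℕ} (hij : i ≤ j) (hj : j ≤ s)
    (hw : w j u = w j v) : w i u = w i v := by
  rcases eq_or_ne u v with rfl | huv
  · rfl
  · rw [h.iff u hu v hv huv i (hij.trans hj)]
    rw [h.iff u hu v hv huv j hj] at hw
    exact hij.trans hw

theorem labs_card_le {lam : α → α → L} {lev : L → ℕ} {w : ℕ → α → W} {s i : ℕ} {V : Finset α}
    (h : Sys lam lev w s V) (hi : ∀ u ∈ V, ∀ v ∈ V, u ≠ v → i < lev (lam u v)) :
    (labs lam V).card ≤ ∑ j ∈ Finset.Ioc i s, (Z lam lev w j V).card := by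
  have h1 : labs lam V ⊆ (Finset.Ioc i s).biUnion (fun j => (Z lam lev w j V).image Prod.snd) := by
    intro l hl
    rw [mem_labs] at hl
    obtain ⟨u, hu, v, hv, huv, rfl⟩ := hl
    rw [mem_biUnion]
    refine ⟨lev (lam u v), ?_, ?_⟩
    · rw [Finset.mem_Ioc]
      exact ⟨hi u hu v hv huv, h.le u hu v hv huv⟩
    · rw [mem_image]
      refine ⟨(w (lev (lam u v) - 1) u, lam u v), ?_, rfl⟩
      rw [mem_Z]
      exact ⟨u, hu, v, hv, huv, rfl, rfl, rfl⟩
  refine (card_le_card h1).trans (card_biUnion_le.trans (sum_le_sum fun j _ => card_image_le))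

/-- the whole label set counts when all labels have level above `i` -/
theorem card_le_A {lam : α → α → L} {lev : L → ℕ} {w : ℕ → α → W} {s i : ℕ} {V : Finset α}
    (h : Sys lam lev w s V) (hg : Good lam V) (hi : ∀ u ∈ V, ∀ v ∈ V, u ≠ v → i < lev (lam u v)) :
    V.card ≤ A lam lev w s i V := by
  rcases V.eq_empty_or_nonempty with rfl | hne
  · simp
  have h1 := hg V subset_rfl
  have h2 := labs_card_le h hi
  have h3 : 1 ≤ (V.image (w s)).card := card_pos.2 (hne.image _)
  unfold A
  omega

/-- **Key inequality.** -/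
theorem key {lam : α → α → L} {lev : L → ℕ} {w : ℕ → α → W} {s : ℕ} :
    ∀ d i : ℕ, i + d = s → ∀ U : Finset α, Sys lam lev w s U → Good lam U →
      (∀ u ∈ U, ∀ v ∈ U, w i u = w i v) → U.card < 2 ^ (d + 1) → U.card ≤ A lam lev w s i U := by
  intro d
  induction d with
  | zero =>
    intro i hi U _ _ _ hc
    rcases U.eq_empty_or_nonempty with rfl | hne
    · simp
    have h3 : 1 ≤ (U.image (w s)).card := card_pos.2 (hne.image _)
    unfold A
    have : U.card < 2 := by simpa using hc
    omega
  | succ d ih =>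
    intro i hi U hS hg hU hc
    have his : i + 1 ≤ s := by omega
    set T := U.image (w (i + 1)) with hT
    have hUc : ∀ c, (U.filter (fun u => w (i + 1) u = c)) ⊆ U := fun c => filter_subset _ _
    have hcard : U.card = ∑ c ∈ T, (U.filter (fun u => w (i + 1) u = c)).card :=
      card_eq_sum_card_image _ _
    -- windows of level s
    have h1 : ∑ c ∈ T, ((U.filter (fun u => w (i + 1) u = c)).image (w s)).card ≤ (U.image (w s)).card := by
      rw [← card_biUnion]
      · refine card_le_card ?_
        intro z hz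
        rw [mem_biUnion] at hz
        obtain ⟨c, _, hz⟩ := hz
        exact image_subset_image (hUc c) hz
      · intro c _ c' _ hcc
        rw [Function.onFun, disjoint_left]
        intro z hz hz'
        rw [mem_image] at hz hz'
        obtain ⟨u, hu, rfl⟩ := hz
        obtain ⟨v, hv, hvu⟩ := hz'
        rw [mem_filter] at hu hv
        apply hcc
        rw [← hu.2, ← hv.2]
        exact (hS.refine hv.1 hu.1 his le_rfl hvu).symm
    -- higher levels
    have h2 : ∀ j ∈ Finset.Ioc (i + 1) s,
        ∑ c ∈ T, (Z lam lev w j (U.filter (fun u => w (i + 1) u = c))).card ≤ (Z lam lev w j U).card := by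
      intro j hj
      rw [Finset.mem_Ioc] at hj
      rw [← card_biUnion]
      · refine card_le_card ?_
        intro z hz
        rw [mem_biUnion] at hz
        obtain ⟨c, _, hz⟩ := hz
        exact Z_mono (hUc c) hz
      · intro c _ c' _ hcc
        rw [Function.onFun, disjoint_left]
        intro z hz hz'
        rw [mem_Z] at hz hz'
        obtain ⟨u, hu, _, _, _, _, hwu, _⟩ := hz
        obtain ⟨v, hv, _, _, _, _, hwv, _⟩ := hz'
        rw [mem_filter] at hu hv
        apply hcc
        rw [← hu.2, ← hv.2]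
        refine hS.refine hu.1 hv.1 (show i + 1 ≤ j - 1 by omega) (by omega) ?_
        rw [hwu, hwv]
    have h3 : ∑ c ∈ T, A lam lev w s (i + 1) (U.filter (fun u => w (i + 1) u = c)) +
        (Z lam lev w (i + 1) U).card ≤ A lam lev w s i U := by
      unfold A
      rw [sum_add_distrib, sum_comm]
      have h4 : Finset.Ioc i s = insert (i + 1) (Finset.Ioc (i + 1) s) := by
        ext j
        simp only [mem_insert, Finset.mem_Ioc]
        omega
      rw [h4, sum_insert (by simp)]
      have h5 := sum_le_sum h2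
      omega
    refine le_trans ?_ h3
    rw [hcard]
    by_cases hall : ∀ c ∈ T, (U.filter (fun u => w (i + 1) u = c)).card < 2 ^ (d + 1)
    · refine le_trans (sum_le_sum fun c hc => ?_) (Nat.le_add_right _ _)
      refine ih (i + 1) (by omega) _ (hS.mono (hUc c)) (hg.mono (hUc c)) ?_ (hall c hc)
      intro u hu v hv
      rw [mem_filter] at hu hv
      rw [hu.2, hv.2]
    · push Not at hall
      obtain ⟨c0, hc0, hbig⟩ := hall
      rw [← add_sum_erase _ _ hc0, ← add_sum_erase T (fun c => A lam lev w s (i + 1) (U.filter (fun u => w (i + 1) u = c))) hc0]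
      have h6 : ∑ c ∈ T.erase c0, (U.filter (fun u => w (i + 1) u = c)).card ≤
          ∑ c ∈ T.erase c0, A lam lev w s (i + 1) (U.filter (fun u => w (i + 1) u = c)) := by
        refine sum_le_sum fun c hcT => ?_
        refine ih (i + 1) (by omega) _ (hS.mono (hUc c)) (hg.mono (hUc c)) ?_ ?_
        · intro u hu v hv
          rw [mem_filter] at hu hv
          rw [hu.2, hv.2]
        · have h7 := add_sum_erase T (fun c => (U.filter (fun u => w (i + 1) u = c)).card) hc0
          have h8 : (U.filter (fun u => w (i + 1) u = c)).card ≤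
              ∑ c ∈ T.erase c0, (U.filter (fun u => w (i + 1) u = c)).card :=
            single_le_sum (f := fun c => (U.filter (fun u => w (i + 1) u = c)).card) (fun _ _ => Nat.zero_le _) hcT
          rw [← hcard] at h7
          have h9 : U.card < 2 ^ (d + 1) * 2 := by rw [← pow_succ]; exact hc
          omega
      have h10 : (U.filter (fun u => w (i + 1) u = c0)).card ≤
          A lam lev w s (i + 1) (U.filter (fun u => w (i + 1) u = c0)) + (Z lam lev w (i + 1) U).card := by
        have h11 := card_le_A (hS.mono (hUc c0)) (hg.mono (hUc c0)) (i := i) (by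
          intro u hu v hv huv
          rw [mem_filter] at hu hv
          have := (hS.iff u hu.1 v hv.1 huv (i + 1) his).1 (by rw [hu.2, hv.2])
          omega)
        refine h11.trans ?_
        unfold A
        have h4 : Finset.Ioc i s = insert (i + 1) (Finset.Ioc (i + 1) s) := by
          ext j
          simp only [mem_insert, Finset.mem_Ioc]
          omega
        rw [h4, sum_insert (by simp)]
        have h12 := card_le_card (Z_mono (lam := lam) (lev := lev) (w := w) (j := i + 1) (hUc c0))
        omega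
      omega

end

end Pool.Agent.Helper73_EG
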