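import Mathlib
import Pool.Agent.Helper73_EG.QLemma
import Pool.Agent.Helper73_EG.Count

/-! The induction step: adding one coordinate. -/

namespace Pool.Agent.Helper73_EG

open Finset

set_option linter.unusedSectionVars false

section
variable {α σ L W : Type*} [DecidableEq α] [DecidableEq σ] [DecidableEq L] [DecidableEq W]

/-- the colour of two elements `(row, symbol)` -/
def kap (lam : α → α → L) (lev : L → ℕ) (w : ℕ → α → W) (s : ℕ) (x y : α × σ) :
    (Finset σ × W) ⊕ (L × Option (Option (Finset σ × W))) :=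
  if x.1 = y.1 then Sum.inl ({x.2, y.2}, w s x.1)
  else Sum.inr (lam x.1 y.1, if x.2 = y.2 then none else
    if lev (lam x.1 y.1) = 0 then some none
    else some (some ({x.2, y.2}, w (lev (lam x.1 y.1) - 1) x.1)))

theorem labs_filter_card_le {lam : α → α → L} {lev : L → ℕ} {w : ℕ → α → W} {s i : ℕ} {V : Finset α}
    (h : Sys lam lev w s V) :
    ((labs lam V).filter (fun l => i < lev l)).card ≤ ∑ j ∈ Finset.Ioc i s, (Z lam lev w j V).card := by
  have h1 : (labs lam V).filter (fun l => i < lev l) ⊆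
      (Finset.Ioc i s).biUnion (fun j => (Z lam lev w j V).image Prod.snd) := by
    intro l hl
    rw [mem_filter, mem_labs] at hl
    obtain ⟨⟨u, hu, v, hv, huv, rfl⟩, hl⟩ := hl
    rw [mem_biUnion]
    refine ⟨lev (lam u v), ?_, ?_⟩
    · rw [Finset.mem_Ioc]
      exact ⟨hl, h.le u hu v hv huv⟩
    · rw [mem_image]
      refine ⟨(w (lev (lam u v) - 1) u, lam u v), ?_, rfl⟩
      rw [mem_Z]
      exact ⟨u, hu, v, hv, huv, rfl, rfl, rfl⟩
  refine (card_le_card h1).trans (card_biUnion_le.trans (sum_le_sum fun j _ => card_image_le))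

/-- **Step.** -/
theorem step {lam : α → α → L} {lev : L → ℕ} {w : ℕ → α → W} {s : ℕ} (S : Finset (α × σ))
    (hS : Sys lam lev w s (S.image Prod.fst)) (hw0 : ∀ u v, w 0 u = w 0 v)
    (hg : Good lam (S.image Prod.fst)) (hc : S.card ≤ 4 * (2 ^ (s + 1) - 1) + 3) :
    S.card ≤ (labs (kap lam lev w s) S).card + 1 := by
  classical
  set U := S.image Prod.fst with hU
  let C : α → Finset σ := fun u => (S.filter (fun x => x.1 = u)).image Prod.snd
  have memC : ∀ u a, a ∈ C u ↔ (u, a) ∈ S := by
    intro u a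
    simp only [C, mem_image, mem_filter, Prod.exists]
    constructor
    · rintro ⟨u', a', ⟨h, h'⟩, h''⟩
      subst h' h''
      exact h
    · intro h
      exact ⟨u, a, ⟨h, rfl⟩, rfl⟩
  have memU : ∀ u a, a ∈ C u → u ∈ U := by
    intro u a h
    rw [hU, mem_image]
    exact ⟨(u, a), (memC u a).1 h, rfl⟩
  have hCpos : ∀ u ∈ U, 1 ≤ (C u).card := by
    intro u hu
    rw [hU, mem_image] at hu
    obtain ⟨x, hx, rfl⟩ := hu
    exact card_pos.2 ⟨x.2, (memC x.1 x.2).2 hx⟩
  have hsumC : ∑ u ∈ U, (C u).card = S.card := by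
    rw [card_eq_sum_card_image Prod.fst S]
    refine sum_congr rfl fun u _ => ?_
    simp only [C]
    rw [card_image_of_injOn]
    rintro ⟨a, b⟩ h ⟨a', b'⟩ h' hh
    simp only [coe_filter, Set.mem_ofPred_eq] at h h' hh
    rw [Prod.ext_iff]
    exact ⟨h.2.trans h'.2.symm, hh⟩
  set P := prs U C with hP
  set TL := P.biUnion (fun π => labs lam (rws U C π)) with hTL
  set L0 := TL.filter (fun l => lev l = 0) with hL0
  have hrwsU : ∀ π, rws U C π ⊆ U := fun π => filter_subset _ _
  -- colours
  have col1 : ∀ u a b, a ∈ C u → b ∈ C u → a ≠ b →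
      Sum.inl ({a, b}, w s u) ∈ labs (kap lam lev w s) S := by
    intro u a b ha hb hab
    rw [mem_labs]
    refine ⟨(u, a), (memC u a).1 ha, (u, b), (memC u b).1 hb, ?_, ?_⟩
    · intro h; exact hab (congrArg Prod.snd h)
    · simp [kap]
  have col2 : ∀ u v a b, u ≠ v → a ∈ C u → b ∈ C v →
      Sum.inr (lam u v, if a = b then none else
        if lev (lam u v) = 0 then some none
        else some (some ({a, b}, w (lev (lam u v) - 1) u))) ∈ labs (kap lam lev w s) S := by
    intro u v a b huv ha hb
    rw [mem_labs]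
    refine ⟨(u, a), (memC u a).1 ha, (v, b), (memC v b).1 hb, ?_, ?_⟩
    · intro h; exact huv (congrArg Prod.fst h)
    · simp [kap, huv]
  have pair : ∀ π ∈ P, ∃ a b, a ≠ b ∧ π = {a, b} := by
    intro π hπ
    rw [hP, mem_prs] at hπ
    obtain ⟨_, _, _, h⟩ := hπ
    obtain ⟨a, b, hab, rfl⟩ := card_eq_two.1 h
    exact ⟨a, b, hab, rfl⟩
  have hbase : ∀ l, ∃ y : Option (Option (Finset σ × W)), l ∈ labs lam U →
      (Sum.inr (l, y) ∈ labs (kap lam lev w s) S ∧ (l ∈ TL → y = none)) := by
    intro l
    by_cases hl : l ∈ labs lam U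
    · by_cases hT : l ∈ TL
      · refine ⟨none, fun _ => ⟨?_, fun _ => rfl⟩⟩
        rw [hTL, mem_biUnion] at hT
        obtain ⟨π, hπ, hT⟩ := hT
        rw [mem_labs] at hT
        obtain ⟨u, hu, v, hv, huv, rfl⟩ := hT
        obtain ⟨a, b, hab, rfl⟩ := pair π hπ
        simp only [rws, mem_filter] at hu hv
        have := col2 u v a a huv (hu.2 (by simp)) (hv.2 (by simp))
        simpa using this
      · rw [mem_labs] at hl
        obtain ⟨u, hu, v, hv, huv, rfl⟩ := hl
        obtain ⟨a, ha⟩ := card_pos.1 (hCpos u hu)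
        obtain ⟨b, hb⟩ := card_pos.1 (hCpos v hv)
        exact ⟨_, fun _ => ⟨col2 u v a b huv ha hb, fun h => absurd h hT⟩⟩
    · exact ⟨none, fun h => absurd h hl⟩
  choose x hx using hbase
  let K1 : Finset ((Finset σ × W) ⊕ (L × Option (Option (Finset σ × W)))) :=
    P.biUnion (fun π => ((rws U C π).image (w s)).image (fun z => Sum.inl (π, z)))
  let K2 : Finset ((Finset σ × W) ⊕ (L × Option (Option (Finset σ × W)))) :=
    P.biUnion (fun π => (Finset.Ioc 0 s).biUnion (fun j =>
      (Z lam lev w j (rws U C π)).image (fun z => Sum.inr (z.2, some (some (π, z.1))))))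
  let K3 : Finset ((Finset σ × W) ⊕ (L × Option (Option (Finset σ × W)))) :=
    L0.image (fun l => Sum.inr (l, some none))
  let K4 : Finset ((Finset σ × W) ⊕ (L × Option (Option (Finset σ × W)))) :=
    (labs lam U).image (fun l => Sum.inr (l, x l))
  have c1 : K1.card = ∑ π ∈ P, ((rws U C π).image (w s)).card := by
    simp only [K1]
    rw [card_biUnion]
    · refine sum_congr rfl fun π _ => card_image_of_injective _ fun z z' h => ?_
      simpa using h
    · intro π _ π' _ hne
      rw [Function.onFun, disjoint_left]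
      intro z hz hz'
      rw [mem_image] at hz hz'
      obtain ⟨y, _, rfl⟩ := hz
      obtain ⟨y', _, h⟩ := hz'
      simp only [Sum.inl.injEq, Prod.mk.injEq] at h
      exact hne h.1.symm
  have c2 : K2.card = ∑ π ∈ P, ∑ j ∈ Finset.Ioc 0 s, (Z lam lev w j (rws U C π)).card := by
    simp only [K2]
    rw [card_biUnion]
    · refine sum_congr rfl fun π _ => ?_
      rw [card_biUnion]
      · refine sum_congr rfl fun j _ => card_image_of_injective _ fun z z' h => ?_
        simp only [Sum.inr.injEq, Prod.mk.injEq, Option.some.injEq, true_and] at h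
        exact Prod.ext h.2 h.1
      · intro j _ j' _ hne
        rw [Function.onFun, disjoint_left]
        intro z hz hz'
        rw [mem_image] at hz hz'
        obtain ⟨y, hy, rfl⟩ := hz
        obtain ⟨y', hy', h⟩ := hz'
        simp only [Sum.inr.injEq, Prod.mk.injEq, Option.some.injEq, true_and] at h
        rw [mem_Z] at hy hy'
        obtain ⟨_, _, _, _, _, h1, _, h2⟩ := hy
        obtain ⟨_, _, _, _, _, h3, _, h4⟩ := hy'
        apply hne
        rw [← h1, ← h3, h2, h4, h.1]
    · intro π _ π' _ hne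
      rw [Function.onFun, disjoint_left]
      intro z hz hz'
      rw [mem_biUnion] at hz hz'
      obtain ⟨_, _, hz⟩ := hz
      obtain ⟨_, _, hz'⟩ := hz'
      rw [mem_image] at hz hz'
      obtain ⟨y, _, rfl⟩ := hz
      obtain ⟨y', _, h⟩ := hz'
      simp only [Sum.inr.injEq, Prod.mk.injEq, Option.some.injEq] at h
      exact hne h.2.1.symm
  have c3 : K3.card = L0.card := card_image_of_injective _ fun l l' h => by simpa using h
  have c4 : K4.card = (labs lam U).card := card_image_of_injective _ fun l l' h => by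
    simp only [Sum.inr.injEq, Prod.mk.injEq] at h
    exact h.1
  -- inclusions
  have s1 : K1 ⊆ labs (kap lam lev w s) S := by
    intro z hz
    simp only [K1, mem_biUnion, mem_image] at hz
    obtain ⟨π, hπ, y, ⟨u, hu, rfl⟩, rfl⟩ := hz
    obtain ⟨a, b, hab, rfl⟩ := pair π hπ
    simp only [rws, mem_filter] at hu
    exact col1 u a b (hu.2 (by simp)) (hu.2 (by simp)) hab
  have s2 : K2 ⊆ labs (kap lam lev w s) S := by
    intro z hz
    simp only [K2, mem_biUnion, mem_image] at hz
    obtain ⟨π, hπ, j, hj, ⟨y1, y2⟩, hy, rfl⟩ := hz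
    obtain ⟨a, b, hab, rfl⟩ := pair π hπ
    rw [mem_Z] at hy
    obtain ⟨u, hu, v, hv, huv, hl, hw, hlam⟩ := hy
    simp only [rws, mem_filter] at hu hv
    rw [Finset.mem_Ioc] at hj
    have := col2 u v a b huv (hu.2 (by simp)) (hv.2 (by simp))
    rw [if_neg hab, if_neg (by omega), hl] at this
    simp only at hw hlam ⊢
    rw [← hw, ← hlam]
    exact this
  have s3 : K3 ⊆ labs (kap lam lev w s) S := by
    intro z hz
    simp only [K3, mem_image, hL0, mem_filter, hTL, mem_biUnion] at hz
    obtain ⟨l, ⟨⟨π, hπ, hl⟩, hl0⟩, rfl⟩ := hz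
    rw [mem_labs] at hl
    obtain ⟨u, hu, v, hv, huv, rfl⟩ := hl
    obtain ⟨a, b, hab, rfl⟩ := pair π hπ
    simp only [rws, mem_filter] at hu hv
    have := col2 u v a b huv (hu.2 (by simp)) (hv.2 (by simp))
    rw [if_neg hab, if_pos hl0] at this
    exact this
  have s4 : K4 ⊆ labs (kap lam lev w s) S := by
    intro z hz
    simp only [K4, mem_image] at hz
    obtain ⟨l, hl, rfl⟩ := hz
    exact (hx l hl).1
  -- disjointness
  have d12 : Disjoint K1 K2 := by
    rw [disjoint_left]
    intro z hz hz'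
    simp only [K1, K2, mem_biUnion, mem_image] at hz hz'
    obtain ⟨_, _, _, _, rfl⟩ := hz
    obtain ⟨_, _, _, _, _, _, h⟩ := hz'
    exact absurd h (by simp)
  have d13 : Disjoint K1 K3 := by
    rw [disjoint_left]
    intro z hz hz'
    simp only [K1, K3, mem_biUnion, mem_image] at hz hz'
    obtain ⟨_, _, _, _, rfl⟩ := hz
    obtain ⟨_, _, h⟩ := hz'
    exact absurd h (by simp)
  have d14 : Disjoint K1 K4 := by
    rw [disjoint_left]
    intro z hz hz'
    simp only [K1, K4, mem_biUnion, mem_image] at hz hz'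
    obtain ⟨_, _, _, _, rfl⟩ := hz
    obtain ⟨_, _, h⟩ := hz'
    exact absurd h (by simp)
  have d23 : Disjoint K2 K3 := by
    rw [disjoint_left]
    intro z hz hz'
    simp only [K2, K3, mem_biUnion, mem_image] at hz hz'
    obtain ⟨_, _, _, _, _, _, rfl⟩ := hz
    obtain ⟨_, _, h⟩ := hz'
    exact absurd h (by simp)
  have d24 : Disjoint K2 K4 := by
    rw [disjoint_left]
    intro z hz hz'
    simp only [K2, K4, mem_biUnion, mem_image] at hz hz'
    obtain ⟨π, hπ, j, hj, y, hy, rfl⟩ := hz
    obtain ⟨l, hl, h⟩ := hz'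
    simp only [Sum.inr.injEq, Prod.mk.injEq] at h
    rw [mem_Z] at hy
    obtain ⟨u, hu, v, hv, huv, _, _, hlam⟩ := hy
    have hT : l ∈ TL := by
      rw [hTL, mem_biUnion]
      refine ⟨π, hπ, ?_⟩
      rw [mem_labs]
      exact ⟨u, hu, v, hv, huv, by rw [hlam, h.1]⟩
    rw [(hx l hl).2 hT] at h
    exact absurd h.2 (by simp)
  have d34 : Disjoint K3 K4 := by
    rw [disjoint_left]
    intro z hz hz'
    simp only [K3, K4, mem_image] at hz hz'
    obtain ⟨l0, hl0, rfl⟩ := hz
    obtain ⟨l, hl, h⟩ := hz'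
    simp only [Sum.inr.injEq, Prod.mk.injEq] at h
    have hT : l ∈ TL := by
      rw [h.1]
      exact (mem_filter.1 hl0).1
    rw [(hx l hl).2 hT] at h
    exact absurd h.2 (by simp)
  have htot : K1.card + K2.card + K3.card + K4.card ≤ (labs (kap lam lev w s) S).card := by
    rw [← card_union_of_disjoint d12, ← card_union_of_disjoint, ← card_union_of_disjoint]
    · refine card_le_card ?_
      intro z hz
      simp only [mem_union] at hz
      rcases hz with ((hz | hz) | hz) | hz
      · exact s1 hz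
      · exact s2 hz
      · exact s3 hz
      · exact s4 hz
    · rw [disjoint_union_left, disjoint_union_left]
      exact ⟨⟨d14, d24⟩, d34⟩
    · rw [disjoint_union_left]
      exact ⟨d13, d23⟩
  -- the counting lemma
  have hpow : 2 ≤ 2 ^ (s + 1) := by
    rw [pow_succ]
    have := Nat.one_le_two_pow (n := s)
    omega
  have hcount := count U C (2 ^ (s + 1) - 1) L0.card (fun π => A lam lev w s 0 (rws U C π))
    (by omega) hCpos (by rw [hsumC]; exact hc) ?_ ?_
  · have h1 := hg U subset_rfl
    have h2 : ∑ π ∈ P, A lam lev w s 0 (rws U C π) = K1.card + K2.card := by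
      rw [c1, c2, ← sum_add_distrib]
      rfl
    rw [hsumC] at hcount
    rw [h2] at hcount
    omega
  · intro π hπ
    rcases Nat.lt_or_ge (rws U C π).card (2 ^ (s + 1)) with h | h
    · refine (min_le_left _ _).trans ?_
      exact key s 0 (by omega) _ (hS.mono (hrwsU π)) (hg.mono (hrwsU π)) (fun u _ v _ => hw0 u v) h
    · obtain ⟨V, hV, hVc⟩ := exists_subset_card_eq (show 2 ^ (s + 1) - 1 ≤ (rws U C π).card by omega)
      refine (min_le_right _ _).trans ?_
      rw [← hVc]
      refine (key s 0 (by omega) V (hS.mono (hV.trans (hrwsU π))) (hg.mono (hV.trans (hrwsU π)))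
        (fun u _ v _ => hw0 u v) (by rw [hVc]; omega)).trans (A_mono hV)
  · intro π hπ
    rcases (rws U C π).eq_empty_or_nonempty with h0 | hne
    · rw [h0]; simp
    have h1 := hg (rws U C π) (hrwsU π)
    have h2 : (labs lam (rws U C π)).card ≤ L0.card + ((labs lam (rws U C π)).filter (fun l => 0 < lev l)).card := by
      rw [← card_filter_add_card_filter_not (s := labs lam (rws U C π)) (fun l => lev l = 0)]
      refine Nat.add_le_add (card_le_card ?_) (card_le_card ?_)
      · intro l hl
        rw [mem_filter] at hl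
        rw [hL0, mem_filter, hTL, mem_biUnion]
        exact ⟨⟨π, hπ, hl.1⟩, hl.2⟩
      · intro l hl
        rw [mem_filter] at hl ⊢
        exact ⟨hl.1, by omega⟩
    have h3 := labs_filter_card_le (i := 0) (hS.mono (hrwsU π))
    have h4 : 1 ≤ ((rws U C π).image (w s)).card := card_pos.2 (hne.image _)
    unfold A
    omega

end

end Pool.Agent.Helper73_EG
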