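import Mathlib
import Pool.Agent.Helper73_EG.Step

/-! The colouring of strings and its goodness. -/

namespace Pool.Agent.Helper73_EG

open Finset

/-- `x` and `y` agree at the positions before `n` in the block of length `t^j` containing `n` -/
def ag (t j n : ℕ) (x y : ℕ → ℕ) : Prop := ∀ i, i < n → i / t ^ j = n / t ^ j → x i = y i

instance (t j n : ℕ) (x y : ℕ → ℕ) : Decidable (ag t j n x y) := by unfold ag; infer_instance

/-- the string `x` before `n` inside the block of length `t^j` containing `n` -/
def win (t j n : ℕ) (x : ℕ → ℕ) : ℕ → ℕ := fun i => if i < n ∧ i / t ^ j = n / t ^ j then x i else 0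

/-- the largest `j ≤ r` with `ag t j n x y` -/
def lv (t r n : ℕ) (x y : ℕ → ℕ) : ℕ := Nat.findGreatest (fun j => ag t j n x y) r

/-- what is recorded at position `n` -/
def info (t r n : ℕ) (x y : ℕ → ℕ) : Option (Option (Finset ℕ × (ℕ → ℕ))) :=
  if x n = y n then none else
  if lv t r n x y = 0 then some none else some (some ({x n, y n}, win t (lv t r n x y - 1) n x))

/-- the colour of the pair `x, y` up to length `n` -/
def col (t r n : ℕ) (x y : ℕ → ℕ) : ℕ → Option (Option (Finset ℕ × (ℕ → ℕ))) :=
  fun i => if i < n then info t r i x y else none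

theorem win_eq_iff {t j n : ℕ} {x y : ℕ → ℕ} : win t j n x = win t j n y ↔ ag t j n x y := by
  unfold win ag
  constructor
  · intro h i hi hij
    have := congrFun h i
    simpa [hi, hij] using this
  · intro h
    funext i
    split_ifs with h1
    · exact h i h1.1 h1.2
    · rfl

theorem ag_zero (t n : ℕ) (x y : ℕ → ℕ) : ag t 0 n x y := by
  intro i hi h
  simp only [pow_zero, Nat.div_one] at h
  omega

theorem ag_mono {t j j' n : ℕ} {x y : ℕ → ℕ} (hj : j ≤ j') (h : ag t j' n x y) : ag t j n x y := by
  intro i hi hij
  refine h i hi ?_
  have : t ^ j' = t ^ j * t ^ (j' - j) := by rw [← pow_add]; congr 1; omega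
  rw [this, ← Nat.div_div_eq_div_mul, ← Nat.div_div_eq_div_mul, hij]

theorem ag_iff {t r n j : ℕ} {x y : ℕ → ℕ} (hj : j ≤ r) : ag t j n x y ↔ j ≤ lv t r n x y := by
  unfold lv
  constructor
  · intro h
    exact Nat.le_findGreatest hj h
  · intro h
    exact ag_mono h (Nat.findGreatest_spec (P := fun j => ag t j n x y) (Nat.zero_le r) (ag_zero t n x y))

theorem lv_le (t r n : ℕ) (x y : ℕ → ℕ) : lv t r n x y ≤ r := Nat.findGreatest_le r

theorem info_none_iff {t r n : ℕ} {x y : ℕ → ℕ} : info t r n x y = none ↔ x n = y n := by
  unfold info
  split_ifs with h1 h2 <;> simp [h1]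

theorem col_none_iff {t r n i : ℕ} {x y : ℕ → ℕ} (hi : i < n) : col t r n x y i = none ↔ x i = y i := by
  unfold col
  rw [if_pos hi, info_none_iff]

/-- truncation -/
def tr (n : ℕ) (x : ℕ → ℕ) : ℕ → ℕ := fun i => if i < n then x i else 0

theorem ag_congr {t j n : ℕ} {x y x' y' : ℕ → ℕ} (hx : ∀ i < n, x i = x' i) (hy : ∀ i < n, y i = y' i) :
    ag t j n x y ↔ ag t j n x' y' := by
  unfold ag
  constructor
  · intro h i hi hij; rw [← hx i hi, ← hy i hi]; exact h i hi hij
  · intro h i hi hij; rw [hx i hi, hy i hi]; exact h i hi hij

theorem lv_congr {t r n : ℕ} {x y x' y' : ℕ → ℕ} (hx : ∀ i < n, x i = x' i) (hy : ∀ i < n, y i = y' i) :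
    lv t r n x y = lv t r n x' y' := by
  apply le_antisymm
  · rw [← ag_iff (lv_le t r n x y), ← ag_congr hx hy, ag_iff (lv_le t r n x y)]
  · rw [← ag_iff (lv_le t r n x' y'), ag_congr hx hy, ag_iff (lv_le t r n x' y')]

theorem win_congr {t j n : ℕ} {x x' : ℕ → ℕ} (hx : ∀ i < n, x i = x' i) : win t j n x = win t j n x' := by
  funext i
  unfold win
  split_ifs with h
  · exact hx i h.1
  · rfl

theorem info_congr {t r n : ℕ} {x y x' y' : ℕ → ℕ} (hx : ∀ i ≤ n, x i = x' i) (hy : ∀ i ≤ n, y i = y' i) :
    info t r n x y = info t r n x' y' := by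
  unfold info
  rw [hx n le_rfl, hy n le_rfl, lv_congr (t := t) (r := r) (fun i hi => hx i hi.le) (fun i hi => hy i hi.le),
    win_congr (fun i hi => hx i hi.le)]

theorem col_tr (t r n : ℕ) (x y : ℕ → ℕ) : col t r n (tr n x) (tr n y) = col t r n x y := by
  funext i
  unfold col
  split_ifs with h
  · refine info_congr (fun j hj => ?_) (fun j hj => ?_)
    · unfold tr; rw [if_pos (by omega)]
    · unfold tr; rw [if_pos (by omega)]
  · rfl

theorem tr_eq_iff {n : ℕ} {x y : ℕ → ℕ} : tr n x = tr n y ↔ ∀ i < n, x i = y i := by
  unfold tr
  constructor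
  · intro h i hi
    have := congrFun h i
    simpa [hi] using this
  · intro h
    funext i
    split_ifs with hi
    · exact h i hi
    · rfl

/-- the level of a label -/
def levL (t s n : ℕ) (l : ℕ → Option (Option (Finset ℕ × (ℕ → ℕ)))) : ℕ :=
  Nat.findGreatest (fun j => ∀ i, i < n → i / t ^ j = n / t ^ j → (l i).isNone = true) s

theorem levL_iff {t s n j r : ℕ} {x y : ℕ → ℕ} (hj : j ≤ s) :
    j ≤ levL t s n (col t r n x y) ↔ ag t j n x y := by
  have h0 : ∀ j, (∀ i, i < n → i / t ^ j = n / t ^ j → (col t r n x y i).isNone = true) ↔ ag t j n x y := by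
    intro j
    unfold ag
    constructor
    · intro h i hi hij
      have := h i hi hij
      rw [Option.isNone_iff_eq_none, col_none_iff hi] at this
      exact this
    · intro h i hi hij
      rw [Option.isNone_iff_eq_none, col_none_iff hi]
      exact h i hi hij
  unfold levL
  constructor
  · intro h
    refine ag_mono h ?_
    rw [← h0]
    exact Nat.findGreatest_spec (P := fun j => ∀ i, i < n → i / t ^ j = n / t ^ j → (col t r n x y i).isNone = true)
      (Nat.zero_le s) ((h0 0).2 (ag_zero t n x y))
  · intro h
    exact Nat.le_findGreatest hj ((h0 j).2 h)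

noncomputable section

attribute [local instance] Classical.propDecidable

theorem good_col (t r : ℕ) (hr : 1 ≤ r) : ∀ n ≤ t ^ r, ∀ S : Finset (ℕ → ℕ),
    (∀ x ∈ S, ∀ i, n ≤ i → x i = 0) → S.card ≤ 2 ^ (r + 2) - 1 → S.card ≤ (labs (col t r n) S).card + 1 := by
  intro n
  induction n with
  | zero =>
    intro _ S hS _
    have : S ⊆ {fun _ => 0} := by
      intro x hx
      rw [mem_singleton]
      funext i
      exact hS x hx i (Nat.zero_le i)
    have := card_le_card this
    rw [card_singleton] at this
    omega
  | succ n ih =>
    intro hn S hS hc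
    obtain ⟨s, rfl⟩ : ∃ s, r = s + 1 := ⟨r - 1, by omega⟩
    set S' : Finset ((ℕ → ℕ) × ℕ) := S.image (fun x => (tr n x, x n)) with hS'
    have hinj : Set.InjOn (fun x : ℕ → ℕ => (tr n x, x n)) S := by
      intro x hx y hy hxy
      simp only [Prod.mk.injEq] at hxy
      rw [tr_eq_iff] at hxy
      funext i
      rcases lt_trichotomy i n with h | h | h
      · exact hxy.1 i h
      · rw [h]; exact hxy.2
      · rw [hS x hx i (by omega), hS y hy i (by omega)]
    have hcard : S'.card = S.card := card_image_of_injOn hinj
    have hUtr : ∀ u ∈ S'.image Prod.fst, ∃ x ∈ S, u = tr n x := by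
      intro u hu
      rw [mem_image] at hu
      obtain ⟨z, hz, rfl⟩ := hu
      rw [hS', mem_image] at hz
      obtain ⟨x, hx, rfl⟩ := hz
      exact ⟨x, hx, rfl⟩
    have hUc : (S'.image Prod.fst).card ≤ S.card := by
      rw [← hcard]; exact card_image_le
    have hg : Good (col t (s + 1) n) (S'.image Prod.fst) := by
      intro V hV
      refine ih (by omega) V ?_ ?_
      · intro x hx i hi
        obtain ⟨y, _, rfl⟩ := hUtr x (hV hx)
        unfold tr
        rw [if_neg (by omega)]
      · exact ((card_le_card hV).trans hUc).trans hc
    have hsys : Sys (col t (s + 1) n) (levL t s n) (fun j => win t j n) s (S'.image Prod.fst) := by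
      refine ⟨fun u _ v _ _ => Nat.findGreatest_le s, ?_⟩
      intro u _ v _ _ j hj
      rw [win_eq_iff, levL_iff hj]
    have hw0 : ∀ u v : ℕ → ℕ, win t 0 n u = win t 0 n v := fun u v => win_eq_iff.2 (ag_zero t n u v)
    have hpow : 2 ^ (s + 1 + 2) = 4 * 2 ^ (s + 1) := by rw [pow_add]; ring
    have hpos := Nat.one_le_two_pow (n := s + 1)
    have hstep := step S' hsys hw0 hg (by rw [hcard]; omega)
    rw [hcard] at hstep
    refine hstep.trans (Nat.add_le_add_right ?_ 1)
    let Φ : (ℕ → Option (Option (Finset ℕ × (ℕ → ℕ)))) →
        (Finset ℕ × (ℕ → ℕ)) ⊕ ((ℕ → Option (Option (Finset ℕ × (ℕ → ℕ)))) × Option (Option (Finset ℕ × (ℕ → ℕ)))) :=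
      fun c => if (∀ i < n, c i = none) then
          (match c n with
            | some (some z) => Sum.inl z
            | _ => Sum.inr (c, none))
        else Sum.inr (fun i => if i < n then c i else none, c n)
    have hsub : labs (kap (col t (s + 1) n) (levL t s n) (fun j => win t j n) s) S' ⊆
        (labs (col t (s + 1) (n + 1)) S).image Φ := by
      intro z hz
      rw [mem_labs] at hz
      obtain ⟨p, hp, q, hq, hpq, rfl⟩ := hz
      rw [hS', mem_image] at hp hq
      obtain ⟨x, hx, rfl⟩ := hp
      obtain ⟨y, hy, rfl⟩ := hq
      have hxy : x ≠ y := by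
        rintro rfl; exact hpq rfl
      rw [mem_image]
      refine ⟨col t (s + 1) (n + 1) x y, ?_, ?_⟩
      · rw [mem_labs]
        exact ⟨x, hx, y, hy, hxy, rfl⟩
      · have hcn : col t (s + 1) (n + 1) x y n = info t (s + 1) n x y := by
          unfold col; rw [if_pos (by omega)]
        by_cases htr : tr n x = tr n y
        · have hag := tr_eq_iff.1 htr
          have hxn : x n ≠ y n := by
            intro h
            exact hpq (Prod.ext htr h)
          have h1 : ∀ i < n, col t (s + 1) (n + 1) x y i = none := by
            intro i hi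
            rw [col_none_iff (by omega)]
            exact hag i hi
          have h2 : lv t (s + 1) n x y = s + 1 := by
            apply le_antisymm (lv_le _ _ _ _ _)
            rw [← ag_iff le_rfl]
            intro i hi _
            exact hag i hi
          have h3 : info t (s + 1) n x y = some (some ({x n, y n}, win t s n x)) := by
            unfold info
            rw [if_neg hxn, h2, if_neg (by omega), Nat.add_sub_cancel]
          have h4 : win t s n (tr n x) = win t s n x := by
            apply win_congr
            intro i hi
            unfold tr; rw [if_pos hi]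
          simp only [Φ]
          rw [if_pos h1, hcn, h3]
          unfold kap
          rw [if_pos htr]
          simp only [h4]
        · have h1 : ¬ ∀ i < n, col t (s + 1) (n + 1) x y i = none := by
            intro h
            apply htr
            rw [tr_eq_iff]
            intro i hi
            have := h i hi
            rw [col_none_iff (by omega)] at this
            exact this
          have h2 : levL t s n (col t (s + 1) n x y) = lv t (s + 1) n x y := by
            have h3 : lv t (s + 1) n x y ≤ s := by
              by_contra h4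
              have h5 : ag t (s + 1) n x y := (ag_iff le_rfl).2 (by omega)
              apply htr
              rw [tr_eq_iff]
              intro i hi
              refine h5 i hi ?_
              rw [Nat.div_eq_of_lt (by omega), Nat.div_eq_of_lt (by omega)]
            apply le_antisymm
            · rw [← ag_iff (by have := Nat.findGreatest_le (P := fun j => ∀ i, i < n → i / t ^ j = n / t ^ j → (col t (s + 1) n x y i).isNone = true) s; unfold levL; omega), ← levL_iff (s := s) (r := s + 1)]
              exact Nat.findGreatest_le s
            · rw [levL_iff h3]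
              exact (ag_iff (lv_le _ _ _ _ _)).2 le_rfl
          have h5 : (fun i => if i < n then col t (s + 1) (n + 1) x y i else none) = col t (s + 1) n x y := by
            funext i
            unfold col
            split_ifs with h6 h7
            · rfl
            · omega
            · rfl
          simp only [Φ]
          rw [if_neg h1, h5, hcn]
          unfold kap
          rw [if_neg htr]
          simp only [col_tr, h2]
          have h7 : win t (lv t (s + 1) n x y - 1) n (tr n x) = win t (lv t (s + 1) n x y - 1) n x := by
            apply win_congr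
            intro i hi
            unfold tr; rw [if_pos hi]
          rw [h7]
          unfold info
          rfl
    exact (card_le_card hsub).trans card_image_le

end

end Pool.Agent.Helper73_EG
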