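import Mathlib
import Pool.Agent.Helper73_EG.Strings

/-! Counting the colours. -/

namespace Pool.Agent.Helper73_EG

open Finset

/-- first position of the block `β` of length `t^j` at which `x` and `y` differ -/
noncomputable def fd (t j β : ℕ) (x y : ℕ → ℕ) : ℕ := sInf {i | x i ≠ y i ∧ i / t ^ j = β}

theorem fd_congr {t j β : ℕ} {x y x' y' : ℕ → ℕ} (h : ∀ i, x i = y i ↔ x' i = y' i) :
    fd t j β x y = fd t j β x' y' := by
  unfold fd
  congr 1
  ext i
  simp only [Set.mem_ofPred_eq, ne_eq, h i]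

theorem fd_eq {t j i : ℕ} {x y : ℕ → ℕ} (hi : x i ≠ y i) (h : ag t j i x y) :
    fd t j (i / t ^ j) x y = i := by
  unfold fd
  apply le_antisymm
  · exact Nat.sInf_le ⟨hi, rfl⟩
  · have hne : ({i' | x i' ≠ y i' ∧ i' / t ^ j = i / t ^ j} : Set ℕ).Nonempty := ⟨i, hi, rfl⟩
    obtain ⟨h1, h2⟩ := Nat.sInf_mem hne
    by_contra hlt
    push Not at hlt
    exact h1 (h _ hlt h2)

/-- all strings are bounded by `m` and vanish from `T` on -/
def Bd (m T : ℕ) (x : ℕ → ℕ) : Prop := (∀ i, x i < m) ∧ ∀ i, T ≤ i → x i = 0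

/-- the code of a pair -/
noncomputable def code (m t r : ℕ) (x y : ℕ → ℕ) :
    (Fin (t ^ r) → Bool) × (Fin (t ^ (r - 1)) → ℕ × ℕ) × (Fin r → Fin (t ^ (r - 1)) → ℕ) :=
  (fun i => decide (x i = y i),
   fun β => (x (fd t 1 β x y), y (fd t 1 β x y)),
   fun j k => x ((fd t (j + 1) (k / t ^ (j : ℕ)) x y) / t ^ (j : ℕ) * t ^ (j : ℕ) + k % t ^ (j : ℕ)))

theorem col_of_code {m t r : ℕ} (ht : 1 ≤ t) (hr : 1 ≤ r) {x y x' y' : ℕ → ℕ}
    (hx : Bd m (t ^ r) x) (hy : Bd m (t ^ r) y) (hx' : Bd m (t ^ r) x') (hy' : Bd m (t ^ r) y')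
    (h : code m t r x y = code m t r x' y') : col t r (t ^ r) x y = col t r (t ^ r) x' y' := by
  have hD : ∀ i, x i = y i ↔ x' i = y' i := by
    intro i
    rcases Nat.lt_or_ge i (t ^ r) with hi | hi
    · have h1 := congrFun (congrArg Prod.fst h) ⟨i, hi⟩
      simp only [code] at h1
      rw [decide_eq_decide] at h1
      exact h1
    · rw [hx.2 i hi, hy.2 i hi, hx'.2 i hi, hy'.2 i hi]
  have hag : ∀ j i, ag t j i x y ↔ ag t j i x' y' := by
    intro j i
    unfold ag
    constructor
    · intro h1 k hk hk'; rw [← hD]; exact h1 k hk hk'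
    · intro h1 k hk hk'; rw [hD]; exact h1 k hk hk'
  have hlv : ∀ i, lv t r i x y = lv t r i x' y' := by
    intro i
    apply le_antisymm
    · rw [← ag_iff (lv_le _ _ _ _ _), ← hag, ag_iff (lv_le _ _ _ _ _)]
    · rw [← ag_iff (lv_le _ _ _ _ _), hag, ag_iff (lv_le _ _ _ _ _)]
  funext i
  unfold col
  split_ifs with hi
  · unfold info
    rw [← hlv i]
    by_cases hxy : x i = y i
    · rw [if_pos hxy, if_pos ((hD i).1 hxy)]
    · rw [if_neg hxy, if_neg (fun h' => hxy ((hD i).2 h'))]
      have hxy' : x' i ≠ y' i := fun h' => hxy ((hD i).2 h')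
      by_cases h0 : lv t r i x y = 0
      · rw [if_pos h0, if_pos h0]
      · rw [if_neg h0, if_neg h0]
        obtain ⟨J, hJ⟩ : ∃ J, lv t r i x y = J + 1 := ⟨lv t r i x y - 1, by omega⟩
        have hJr : J + 1 ≤ r := by rw [← hJ]; exact lv_le _ _ _ _ _
        have a1 : ag t 1 i x y := (ag_iff hr).2 (by omega)
        have aJ : ag t (J + 1) i x y := (ag_iff hJr).2 (by omega)
        have a1' := (hag _ _).1 a1
        have aJ' := (hag _ _).1 aJ
        have hblk : i / t ^ 1 < t ^ (r - 1) := by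
          rw [Nat.div_lt_iff_lt_mul (by positivity), ← pow_add]
          rwa [Nat.sub_add_cancel hr]
        have e1 := congrFun (congrArg (fun z => z.2.1) h) ⟨i / t ^ 1, hblk⟩
        simp only [code] at e1
        rw [fd_eq hxy a1, fd_eq hxy' a1'] at e1
        have e2 : x i = x' i := congrArg Prod.fst e1
        have e3 : y i = y' i := congrArg Prod.snd e1
        have e4 : win t J i x = win t J i x' := by
          funext k
          unfold win
          split_ifs with hk
          · have hpos : 0 < t ^ J := by positivity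
            have hidx : (i / t ^ (J + 1)) * t ^ J + k % t ^ J < t ^ (r - 1) := by
              have h1 : i / t ^ (J + 1) < t ^ (r - 1 - J) := by
                rw [Nat.div_lt_iff_lt_mul (by positivity), ← pow_add]
                have : r - 1 - J + (J + 1) = r := by omega
                rwa [this]
              have h2 : k % t ^ J < t ^ J := Nat.mod_lt _ hpos
              calc (i / t ^ (J + 1)) * t ^ J + k % t ^ J < (i / t ^ (J + 1)) * t ^ J + t ^ J := by omega
                _ = (i / t ^ (J + 1) + 1) * t ^ J := by ring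
                _ ≤ t ^ (r - 1 - J) * t ^ J := Nat.mul_le_mul_right _ h1
                _ = t ^ (r - 1) := by rw [← pow_add]; congr 1; omega
            have e5 := congrFun (congrFun (congrArg (fun z => z.2.2) h) ⟨J, by omega⟩) ⟨_, hidx⟩
            simp only [code] at e5
            have h3 : ((i / t ^ (J + 1)) * t ^ J + k % t ^ J) / t ^ J = i / t ^ (J + 1) := by
              rw [mul_comm, Nat.mul_add_div hpos, Nat.div_eq_of_lt (Nat.mod_lt _ hpos), Nat.add_zero]
            have h4 : ((i / t ^ (J + 1)) * t ^ J + k % t ^ J) % t ^ J = k % t ^ J := by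
              rw [mul_comm, Nat.mul_add_mod, Nat.mod_mod]
            rw [h3, h4, fd_eq hxy aJ, fd_eq hxy' aJ'] at e5
            have h5 : i / t ^ J * t ^ J + k % t ^ J = k := by
              rw [← hk.2, mul_comm]
              exact Nat.div_add_mod k (t ^ J)
            rw [h5] at e5
            exact e5
          · rfl
        rw [hJ, Nat.add_sub_cancel, e2, e3, e4]
  · rfl

/-- the code with values in a finite type -/
noncomputable def codeF (m t r : ℕ) [NeZero m] (x y : ℕ → ℕ) :
    (Fin (t ^ r) → Bool) × (Fin (t ^ (r - 1)) → Fin m × Fin m) × (Fin r → Fin (t ^ (r - 1)) → Fin m) :=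
  ((code m t r x y).1, fun β => (Fin.ofNat m ((code m t r x y).2.1 β).1, Fin.ofNat m ((code m t r x y).2.1 β).2),
    fun j k => Fin.ofNat m ((code m t r x y).2.2 j k))

theorem code_of_codeF {m t r : ℕ} [NeZero m] {x y x' y' : ℕ → ℕ}
    (hx : Bd m (t ^ r) x) (hy : Bd m (t ^ r) y) (hx' : Bd m (t ^ r) x') (hy' : Bd m (t ^ r) y')
    (h : codeF m t r x y = codeF m t r x' y') : code m t r x y = code m t r x' y' := by
  have h1 : ∀ a b : ℕ, a < m → b < m → Fin.ofNat m a = Fin.ofNat m b → a = b := by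
    intro a b ha hb hab
    have := congrArg Fin.val hab
    simp only [Fin.val_ofNat] at this
    rwa [Nat.mod_eq_of_lt ha, Nat.mod_eq_of_lt hb] at this
  refine Prod.ext ?_ (Prod.ext ?_ ?_)
  · exact congrArg (fun z => z.1) h
  · funext β
    have h2 := congrFun (congrArg (fun z => z.2.1) h) β
    simp only [codeF, Prod.mk.injEq] at h2
    refine Prod.ext (h1 _ _ ?_ ?_ h2.1) (h1 _ _ ?_ ?_ h2.2)
    · exact hx.1 _
    · exact hx'.1 _
    · exact hy.1 _
    · exact hy'.1 _
  · funext j k
    have h2 := congrFun (congrFun (congrArg (fun z => z.2.2) h) j) k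
    exact h1 _ _ (hx.1 _) (hx'.1 _) h2

/-- the number of codes -/
theorem card_code (m t r : ℕ) : Fintype.card ((Fin (t ^ r) → Bool) × (Fin (t ^ (r - 1)) → Fin m × Fin m) ×
    (Fin r → Fin (t ^ (r - 1)) → Fin m)) =
    2 ^ (t ^ r) * ((m * m) ^ (t ^ (r - 1)) * (m ^ (t ^ (r - 1))) ^ r) := by
  simp [Fintype.card_prod]

end Pool.Agent.Helper73_EG
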