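import Mathlib

/-! The statement: cliques with few colours in edge-coloured complete graphs. -/

namespace Pool.Agent.Helper73_EG

/-- Every `k`-edge-colouring of the complete graph on `n` vertices (a symmetric function `c`; its
values on the diagonal play no role) contains `p` vertices whose edges receive at most `p - 2`
distinct colours. `F(p, k)` is the least `n` with this property. -/
def Forces (p k n : ℕ) : Prop :=
  ∀ c : Fin n → Fin n → Fin k, (∀ x y, c x y = c y x) →
    ∃ S : Finset (Fin n), S.card = p ∧ (S.offDiag.image (fun e => c e.1 e.2)).card ≤ p - 2

end Pool.Agent.Helper73_EG
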