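import Mathlib
import Pool.Agent.Helper73_EG.Code
import Pool.Agent.Helper73_EG.Defs

/-! The lower bound for `F(p, k)`. -/

namespace Pool.Agent.Helper73_EG

open Finset

theorem ag_symm {t j n : ℕ} {x y : ℕ → ℕ} : ag t j n x y ↔ ag t j n y x := by
  unfold ag
  constructor
  · intro h i hi hij; exact (h i hi hij).symm
  · intro h i hi hij; exact (h i hi hij).symm

theorem lv_symm {t r n : ℕ} {x y : ℕ → ℕ} : lv t r n x y = lv t r n y x := by
  apply le_antisymm
  · rw [← ag_iff (lv_le _ _ _ _ _), ag_symm, ag_iff (lv_le _ _ _ _ _)]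
  · rw [← ag_iff (lv_le _ _ _ _ _), ag_symm, ag_iff (lv_le _ _ _ _ _)]

theorem info_symm {t r n : ℕ} {x y : ℕ → ℕ} : info t r n x y = info t r n y x := by
  by_cases h : x n = y n
  · rw [info_none_iff.2 h, info_none_iff.2 h.symm]
  · have hlv : lv t r n y x = lv t r n x y := lv_symm
    have h' : ¬ y n = x n := fun h' => h h'.symm
    by_cases h0 : lv t r n x y = 0
    · unfold info
      rw [hlv]
      simp only [if_neg h, if_neg h', if_pos h0]
    · have h1 : win t (lv t r n x y - 1) n x = win t (lv t r n x y - 1) n y := by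
        rw [win_eq_iff, ag_iff (r := r) (by have := lv_le t r n x y; omega)]
        omega
      unfold info
      rw [hlv]
      simp only [if_neg h, if_neg h', if_neg h0]
      rw [h1, pair_comm]

theorem col_symm {t r n : ℕ} {x y : ℕ → ℕ} : col t r n x y = col t r n y x := by
  funext i
  unfold col
  rw [info_symm]

/-- extension of a finite string by zeros -/
def ext {m T : ℕ} (v : Fin T → Fin m) : ℕ → ℕ := fun i => if h : i < T then (v ⟨i, h⟩ : ℕ) else 0

theorem ext_inj {m T : ℕ} : Function.Injective (ext : (Fin T → Fin m) → ℕ → ℕ) := by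
  intro v w h
  funext i
  have := congrFun h i
  unfold ext at this
  rw [dif_pos i.2, dif_pos i.2] at this
  exact Fin.ext this

theorem ext_bd {m T : ℕ} (hm : 0 < m) (v : Fin T → Fin m) : Bd m T (ext v) := by
  constructor
  · intro i
    unfold ext
    split_ifs with h
    · exact (v ⟨i, h⟩).2
    · exact hm
  · intro i hi
    unfold ext
    rw [dif_neg (by omega)]

/-- **The colouring.** -/
theorem not_forces (m t r p k n : ℕ) (hm : 1 ≤ m) (ht : 1 ≤ t) (hr : 1 ≤ r) (hp : 2 ≤ p) (hp' : p < 2 ^ (r + 2))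
    (hk : 2 ^ (t ^ r) * ((m * m) ^ (t ^ (r - 1)) * (m ^ (t ^ (r - 1))) ^ r) ≤ k)
    (hF : Forces p k n) : m ^ (t ^ r) < n := by
  classical
  by_contra hn
  push Not at hn
  have hm0 : NeZero m := ⟨by omega⟩
  -- vertices as strings
  obtain ⟨φ⟩ : Nonempty (Fin n ↪ (Fin (t ^ r) → Fin m)) := by
    apply Function.Embedding.nonempty_of_card_le
    simp only [Fintype.card_fin, Fintype.card_pi, Finset.prod_const, card_univ]
    exact hn
  let X : Fin n → ℕ → ℕ := fun v => ext (φ v)
  have hXinj : Function.Injective X := fun v w h => φ.injective (ext_inj h)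
  have hXbd : ∀ v, Bd m (t ^ r) (X v) := fun v => ext_bd hm _
  -- the set of colours
  let cc : Fin n → Fin n → (ℕ → Option (Option (Finset ℕ × (ℕ → ℕ)))) := fun v w => col t r (t ^ r) (X v) (X w)
  let CS : Finset (ℕ → Option (Option (Finset ℕ × (ℕ → ℕ)))) := (univ : Finset (Fin n × Fin n)).image (fun e => cc e.1 e.2)
  have hcode : ∀ e e' : Fin n × Fin n, codeF m t r (X e.1) (X e.2) = codeF m t r (X e'.1) (X e'.2) →
      cc e.1 e.2 = cc e'.1 e'.2 := by
    intro e e' h
    exact col_of_code (m := m) ht hr (hXbd _) (hXbd _) (hXbd _) (hXbd _)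
      (code_of_codeF (hXbd _) (hXbd _) (hXbd _) (hXbd _) h)
  have hCS : CS.card ≤ k := by
    refine le_trans ?_ hk
    rw [← card_code m t r, ← card_univ]
    let KS := (univ : Finset (Fin n × Fin n)).image (fun e => codeF m t r (X e.1) (X e.2))
    have h1 : CS.card ≤ KS.card := by
      refine card_le_card_of_surjOn (fun z => if h : ∃ e : Fin n × Fin n, codeF m t r (X e.1) (X e.2) = z
        then cc h.choose.1 h.choose.2 else (fun _ => none)) ?_
      intro l hl
      simp only [CS, coe_image, coe_univ, Set.image_univ, Set.mem_range] at hl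
      obtain ⟨e, rfl⟩ := hl
      have h3 : ∃ e' : Fin n × Fin n, codeF m t r (X e'.1) (X e'.2) = codeF m t r (X e.1) (X e.2) := ⟨e, rfl⟩
      refine ⟨codeF m t r (X e.1) (X e.2), ?_, ?_⟩
      · rw [mem_coe]; exact mem_image_of_mem _ (mem_univ e)
      · simp only
        rw [dif_pos h3]
        exact hcode _ _ h3.choose_spec
    exact h1.trans (card_le_univ _)
  have hkpos : 0 < k := lt_of_lt_of_le (by positivity) hk
  obtain ⟨f, hf⟩ : ∃ f : (ℕ → Option (Option (Finset ℕ × (ℕ → ℕ)))) → Fin k, Set.InjOn f CS := by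
    have h1 : Fintype.card CS ≤ Fintype.card (Fin k) := by simpa using hCS
    obtain ⟨ψ⟩ := Function.Embedding.nonempty_of_card_le h1
    refine ⟨fun l => if h : l ∈ CS then ψ ⟨l, h⟩ else ⟨0, hkpos⟩, ?_⟩
    intro a ha b hb hab
    simp only [mem_coe] at ha hb
    simp only [dif_pos ha, dif_pos hb] at hab
    exact congrArg Subtype.val (ψ.injective hab)
  obtain ⟨S, hSp, hSc⟩ := hF (fun v w => f (cc v w)) (fun v w => by simp only [cc]; rw [col_symm])
  -- transfer to strings
  have hgood := good_col t r hr (t ^ r) le_rfl (S.image X) (by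
    intro x hx i hi
    rw [mem_image] at hx
    obtain ⟨v, _, rfl⟩ := hx
    exact (hXbd v).2 i hi) (by
    rw [card_image_of_injective _ hXinj, hSp]; omega)
  rw [card_image_of_injective _ hXinj, hSp] at hgood
  have h1 : (labs (col t r (t ^ r)) (S.image X)).card ≤ (S.offDiag.image (fun e => f (cc e.1 e.2))).card := by
    have h2 : S.offDiag.image (fun e => f (cc e.1 e.2)) = (S.offDiag.image (fun e => cc e.1 e.2)).image f := by
      rw [image_image]; rfl
    rw [h2, card_image_of_injOn]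
    · refine card_le_card ?_
      intro l hl
      rw [mem_labs] at hl
      obtain ⟨x, hx, y, hy, hxy, rfl⟩ := hl
      rw [mem_image] at hx hy
      obtain ⟨v, hv, rfl⟩ := hx
      obtain ⟨w, hw, rfl⟩ := hy
      rw [mem_image]
      refine ⟨(v, w), ?_, rfl⟩
      rw [mem_offDiag]
      exact ⟨hv, hw, fun h => hxy (by simp only at h; rw [h])⟩
    · refine hf.mono ?_
      intro l hl
      rw [mem_coe, mem_image] at hl
      obtain ⟨e, _, rfl⟩ := hl
      rw [mem_coe]
      exact mem_image_of_mem _ (mem_univ e)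
  have hSc' : (S.offDiag.image (fun e => f (cc e.1 e.2))).card ≤ p - 2 := hSc
  omega

/-- with `2^((r+3) t^r)` colours -/
theorem not_forces' (t r p k n : ℕ) (ht : 1 ≤ t) (hr : 1 ≤ r) (hp : 2 ≤ p) (hp' : p < 2 ^ (r + 2))
    (hk : 2 ^ ((r + 3) * t ^ r) ≤ k) (hF : Forces p k n) : 2 ^ (t ^ (r + 1)) < n := by
  have h := not_forces (2 ^ t) t r p k n Nat.one_le_two_pow ht hr hp hp' (le_trans (le_of_eq ?_) hk) hF
  · rwa [← pow_mul, ← pow_succ'] at h
  · obtain ⟨s, rfl⟩ : ∃ s, r = s + 1 := ⟨r - 1, by omega⟩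
    rw [Nat.add_sub_cancel, ← pow_add, ← pow_mul, ← pow_mul, ← pow_mul, ← pow_add, ← pow_add]
    congr 1
    rw [pow_succ]
    ring

theorem forces_le {p k n : ℕ} (hk : 0 < k) (hF : Forces p k n) : p ≤ n := by
  obtain ⟨S, hS, _⟩ := hF (fun _ _ => ⟨0, hk⟩) (fun _ _ => rfl)
  rw [← hS]
  simpa using card_le_univ S

/-- **Main theorem.** -/
theorem main (r : ℕ) (hr : 1 ≤ r) (p : ℕ) (hp : 4 ≤ p) (hp' : p < 2 ^ (r + 2)) :
    ∃ c : ℝ, 0 < c ∧ ∀ k : ℕ, 2 ≤ k → ∀ n : ℕ, Forces p k n →
      Real.exp (c * (Real.log k) ^ (1 + 1 / (r : ℝ))) ≤ n := by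
  set e : ℝ := 1 + 1 / (r : ℝ) with he
  have hr0 : (0 : ℝ) < r := by exact_mod_cast hr
  have he0 : 0 < e := by positivity
  set M : ℝ := (r + 3) * Real.log 2 with hM
  have hl2 : 0 < Real.log 2 := Real.log_pos (by norm_num)
  have hM0 : 0 < M := by positivity
  refine ⟨Real.log 2 / (2 ^ (r + 1) * M ^ e), by positivity, ?_⟩
  intro k hk n hF
  have hkR : (1 : ℝ) < k := by exact_mod_cast (show 1 < k by omega)
  have hlk : 0 < Real.log k := Real.log_pos hkR
  have hn4 : 4 ≤ n := hp.trans (forces_le (by omega) hF)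
  have hnR : (0 : ℝ) < n := by exact_mod_cast (show 0 < n by omega)
  rw [← Real.le_log_iff_exp_le hnR]
  set y : ℝ := (Real.log k / M) ^ (1 / (r : ℝ)) with hy
  have hy0 : 0 ≤ y := by positivity
  have hyr : y ^ r = Real.log k / M := by
    rw [hy, ← Real.rpow_natCast, ← Real.rpow_mul (by positivity), one_div_mul_cancel hr0.ne', Real.rpow_one]
  have hye : (Real.log k / M) ^ e = y ^ (r + 1) := by
    rw [he, Real.rpow_add (by positivity), Real.rpow_one, pow_succ, hyr]
  have hgoal : Real.log 2 / (2 ^ (r + 1) * M ^ e) * (Real.log k) ^ e = Real.log 2 * (y / 2) ^ (r + 1) := by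
    rw [div_pow, ← hye, Real.div_rpow hlk.le hM0.le]
    field_simp
  rw [hgoal]
  rcases lt_or_ge y 1 with hy1 | hy1
  · have h1 : (y / 2) ^ (r + 1) ≤ 1 := pow_le_one₀ (by positivity) (by linarith)
    calc Real.log 2 * (y / 2) ^ (r + 1) ≤ Real.log 2 * 1 := by gcongr
      _ ≤ Real.log n := by
        rw [mul_one]
        apply Real.log_le_log (by norm_num)
        exact_mod_cast (show 2 ≤ n by omega)
  · set t := ⌊y⌋₊ with ht
    have ht1 : 1 ≤ t := by
      rw [ht]; exact Nat.le_floor (by exact_mod_cast hy1)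
    have hty : (t : ℝ) ≤ y := Nat.floor_le hy0
    have hty2 : y / 2 ≤ t := by
      have h1 : y < t + 1 := Nat.lt_floor_add_one y
      have h2 : (1 : ℝ) ≤ t := by exact_mod_cast ht1
      linarith
    have hk2 : 2 ^ ((r + 3) * t ^ r) ≤ k := by
      have h1 : ((r + 3) * t ^ r : ℝ) * Real.log 2 ≤ Real.log k := by
        calc ((r + 3) * t ^ r : ℝ) * Real.log 2 ≤ ((r + 3) * y ^ r : ℝ) * Real.log 2 := by gcongr
          _ = M * y ^ r := by rw [hM]; ring
          _ = Real.log k := by rw [hyr]; field_simp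
      have h2 : Real.log ((2 ^ ((r + 3) * t ^ r) : ℕ) : ℝ) ≤ Real.log k := by
        push_cast
        rw [Real.log_pow]
        push_cast
        exact h1
      rw [Real.log_le_log_iff (by positivity) (by positivity)] at h2
      exact_mod_cast h2
    have h3 := not_forces' t r p k n ht1 hr (by omega) hp' hk2 hF
    have h4 : ((2 ^ (t ^ (r + 1)) : ℕ) : ℝ) ≤ n := by exact_mod_cast h3.le
    calc Real.log 2 * (y / 2) ^ (r + 1) ≤ Real.log 2 * (t : ℝ) ^ (r + 1) := by gcongr
      _ = Real.log ((2 ^ (t ^ (r + 1)) : ℕ) : ℝ) := by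
          push_cast
          rw [Real.log_pow]
          push_cast
          ring
      _ ≤ Real.log n := Real.log_le_log (by positivity) h4

end Pool.Agent.Helper73_EG
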