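import Mathlib

/-! Moment sums separate finite sets with a small symmetric difference. -/

namespace Pool.Agent.Helper73_EG

open Finset

/-- moment vector of a finite set -/
def mom {α : Type*} {P : ℕ} (N : ℕ) (e : α → ZMod P) (X : Finset α) : Fin N → ZMod P :=
  fun j => ∑ u ∈ X, e u ^ (j : ℕ)

theorem mom_poly {α : Type*} {P N : ℕ} {e : α → ZMod P} {X Y : Finset α}
    (h : mom N e X = mom N e Y) (g : Polynomial (ZMod P)) (hg : g.natDegree < N) :
    ∑ u ∈ X, g.eval (e u) = ∑ u ∈ Y, g.eval (e u) := by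
  have key : ∀ Z : Finset α, ∑ u ∈ Z, g.eval (e u) =
      ∑ j ∈ range N, g.coeff j * ∑ u ∈ Z, e u ^ j := by
    intro Z
    simp only [mul_sum]
    rw [sum_comm]
    refine sum_congr rfl fun u _ => ?_
    rw [Polynomial.eval_eq_sum_range' hg]
  rw [key X, key Y]
  refine sum_congr rfl fun j hj => ?_
  have := congrFun h ⟨j, mem_range.1 hj⟩
  simp only [mom] at this
  rw [this]

theorem mom_ne {α : Type*} [DecidableEq α] {P N : ℕ} [Fact P.Prime] {e : α → ZMod P}
    (he : Function.Injective e) {X Y : Finset α} (hne : X ≠ Y)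
    (hc : (X \ Y ∪ Y \ X).card ≤ N) : mom N e X ≠ mom N e Y := by
  intro h
  obtain ⟨u0, hu0⟩ : (X \ Y ∪ Y \ X).Nonempty := by
    rw [nonempty_iff_ne_empty]
    intro h0
    rw [union_eq_empty, sdiff_eq_empty_iff_subset, sdiff_eq_empty_iff_subset] at h0
    exact hne (Subset.antisymm h0.1 h0.2)
  set A := (X \ Y ∪ Y \ X).erase u0 with hA
  let g : Polynomial (ZMod P) := ∏ v ∈ A, (Polynomial.X - Polynomial.C (e v))
  have hdeg : g.natDegree < N := by
    have : g.natDegree = A.card := by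
      simp only [g]
      rw [Polynomial.natDegree_prod_of_monic _ _ (fun v _ => Polynomial.monic_X_sub_C _)]
      simp
    rw [this, hA, card_erase_of_mem hu0]
    have := card_pos.2 ⟨u0, hu0⟩
    omega
  have h1 := mom_poly h g hdeg
  have heval : ∀ u, g.eval (e u) = ∏ v ∈ A, (e u - e v) := by
    intro u
    simp only [g, Polynomial.eval_prod, Polynomial.eval_sub, Polynomial.eval_X, Polynomial.eval_C]
  have hz : ∀ u ∈ A, g.eval (e u) = 0 := by
    intro u hu
    rw [heval]
    exact prod_eq_zero hu (sub_self _)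
  have hnz : g.eval (e u0) ≠ 0 := by
    rw [heval, prod_ne_zero_iff]
    intro v hv
    rw [sub_ne_zero]
    intro hev
    have := he hev
    rw [hA, this] at hv
    simp at hv
  have hX : ∑ u ∈ X, g.eval (e u) = ∑ u ∈ X ∩ Y, g.eval (e u) + ∑ u ∈ X \ Y, g.eval (e u) := by
    rw [← sum_union (disjoint_sdiff_inter X Y).symm, union_comm, sdiff_union_inter]
  have hY : ∑ u ∈ Y, g.eval (e u) = ∑ u ∈ X ∩ Y, g.eval (e u) + ∑ u ∈ Y \ X, g.eval (e u) := by
    rw [inter_comm, ← sum_union (disjoint_sdiff_inter Y X).symm, union_comm, sdiff_union_inter]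
  rw [hX, hY, add_right_inj] at h1
  have hsum : ∀ Z : Finset α, Z ⊆ X \ Y ∪ Y \ X → ∑ u ∈ Z, g.eval (e u) = if u0 ∈ Z then g.eval (e u0) else 0 := by
    intro Z hZ
    split_ifs with hm
    · rw [← add_sum_erase Z _ hm, sum_eq_zero, add_zero]
      intro u hu
      exact hz u (erase_subset_erase _ hZ hu)
    · apply sum_eq_zero
      intro u hu
      apply hz u
      rw [hA, mem_erase]
      exact ⟨fun h' => hm (h' ▸ hu), hZ hu⟩
  rw [hsum _ subset_union_left, hsum _ subset_union_right] at h1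
  rw [mem_union, mem_sdiff, mem_sdiff] at hu0
  rcases hu0 with hu0 | hu0
  · rw [if_pos (mem_sdiff.2 hu0), if_neg (by rw [mem_sdiff]; tauto)] at h1
    exact hnz h1
  · rw [if_neg (by rw [mem_sdiff]; tauto), if_pos (mem_sdiff.2 hu0)] at h1
    exact hnz h1.symm

end Pool.Agent.Helper73_EG
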