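import Mathlib

/-! Counting: random subsets, majority for tuples, covering by few tuples. -/

namespace Pool.Agent.Helper73_EG

open Finset

/-- the set selected by `f` -/
def sel {α : Type*} [Fintype α] {Q : ℕ} [NeZero Q] (f : α → Fin Q) : Finset α := univ.filter (fun u => f u = 0)

theorem card_avoid {α : Type*} [Fintype α] [DecidableEq α] {Q : ℕ} [NeZero Q] (Z : Finset α) :
    (univ.filter (fun f : α → Fin Q => ∀ u ∈ Z, f u ≠ 0)).card * Q ^ Z.card =
      (Q - 1) ^ Z.card * Fintype.card (α → Fin Q) := by
  have h1 : univ.filter (fun f : α → Fin Q => ∀ u ∈ Z, f u ≠ 0) =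
      Fintype.piFinset (fun u => if u ∈ Z then univ.erase (0 : Fin Q) else univ) := by
    ext f
    rw [mem_filter, Fintype.mem_piFinset]
    constructor
    · rintro ⟨_, h⟩ u
      split_ifs with hu
      · exact mem_erase.2 ⟨h u hu, mem_univ _⟩
      · exact mem_univ _
    · intro h
      refine ⟨mem_univ _, fun u hu => ?_⟩
      have := h u
      rw [if_pos hu, mem_erase] at this
      exact this.1
  rw [h1, Fintype.card_piFinset]
  have h2 : ∀ u, (if u ∈ Z then univ.erase (0 : Fin Q) else univ).card = if u ∈ Z then Q - 1 else Q := by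
    intro u
    split_ifs
    · rw [card_erase_of_mem (mem_univ _), card_univ, Fintype.card_fin]
    · rw [card_univ, Fintype.card_fin]
  simp only [h2]
  rw [prod_ite, prod_const, prod_const, Fintype.card_fun, Fintype.card_fin]
  have h3 : (univ.filter (fun u => u ∈ Z)).card = Z.card := by
    congr 1; ext u; simp
  have h4 : (univ.filter (fun u => u ∉ Z)).card + Z.card = Fintype.card α := by
    have : univ.filter (fun u => u ∉ Z) = Zᶜ := by ext u; simp
    rw [this, card_compl]
    have := card_le_univ Z
    omega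
  rw [h3, mul_assoc, ← pow_add, h4]

theorem card_hit {α : Type*} [Fintype α] [DecidableEq α] {Q : ℕ} [NeZero Q] (u0 : α) :
    (univ.filter (fun f : α → Fin Q => f u0 = 0)).card * Q = Fintype.card (α → Fin Q) := by
  have h1 : univ.filter (fun f : α → Fin Q => f u0 = 0) =
      Fintype.piFinset (fun u => if u = u0 then {(0 : Fin Q)} else univ) := by
    ext f
    rw [mem_filter, Fintype.mem_piFinset]
    constructor
    · rintro ⟨_, h⟩ u
      split_ifs with hu
      · rw [hu, mem_singleton]; exact h
      · exact mem_univ _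
    · intro h
      refine ⟨mem_univ _, ?_⟩
      have := h u0
      rw [if_pos rfl, mem_singleton] at this
      exact this
  rw [h1, Fintype.card_piFinset]
  have h2 : ∀ u, (if u = u0 then {(0 : Fin Q)} else univ).card = if u = u0 then 1 else Q := by
    intro u
    split_ifs
    · simp
    · rw [card_univ, Fintype.card_fin]
  simp only [h2]
  rw [prod_ite, prod_const, prod_const, one_pow, one_mul, ← pow_succ, Fintype.card_fun, Fintype.card_fin]
  congr 1
  have : univ.filter (fun u => ¬ u = u0) = univ.erase u0 := by ext u; simp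
  rw [this, card_erase_of_mem (mem_univ _), card_univ]
  have : 0 < Fintype.card α := Fintype.card_pos_iff.2 ⟨u0⟩
  omega

theorem sum_hit {α : Type*} [Fintype α] [DecidableEq α] {Q : ℕ} [NeZero Q] (Z : Finset α) :
    (∑ f : α → Fin Q, (sel f ∩ Z).card) * Q = Z.card * Fintype.card (α → Fin Q) := by
  have h1 : ∀ f : α → Fin Q, (sel f ∩ Z).card = ∑ u ∈ Z, if f u = 0 then 1 else 0 := by
    intro f
    rw [sum_ite, sum_const_zero, add_zero, sum_const, smul_eq_mul, mul_one]
    congr 1
    ext u
    simp only [sel, mem_inter, mem_filter, mem_univ, true_and]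
    tauto
  simp only [h1]
  rw [sum_comm, sum_mul]
  have h2 : ∀ u ∈ Z, (∑ f : α → Fin Q, if f u = 0 then 1 else 0) * Q = Fintype.card (α → Fin Q) := by
    intro u _
    rw [← card_hit u]
    congr 1
    rw [sum_ite, sum_const_zero, add_zero, sum_const, smul_eq_mul, mul_one]
  rw [sum_congr rfl h2, sum_const, smul_eq_mul]

/-- the bad selections for `Z` at scale `Q` -/
def badSel {α : Type*} [Fintype α] [DecidableEq α] (Q : ℕ) [NeZero Q] (Z : Finset α) : Finset (α → Fin Q) :=
  univ.filter (fun f => 320 ≤ (sel f ∩ Z).card ∨ ((5 * Q ≤ Z.card ∨ (Q = 1 ∧ 1 ≤ Z.card)) ∧ (sel f ∩ Z) = ∅))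

theorem badSel_card {α : Type*} [Fintype α] [DecidableEq α] (Q : ℕ) [NeZero Q] (Z : Finset α)
    (hZ : Z.card < 10 * Q) : 16 * (badSel Q Z).card ≤ Fintype.card (α → Fin Q) := by
  have hQ : 0 < Q := Nat.pos_of_ne_zero (NeZero.ne Q)
  set T := Fintype.card (α → Fin Q) with hT
  set b1 := univ.filter (fun f : α → Fin Q => 320 ≤ (sel f ∩ Z).card) with hb1
  have hc1 : 32 * b1.card ≤ T := by
    have h1 : 320 * b1.card ≤ ∑ f : α → Fin Q, (sel f ∩ Z).card := by
      calc 320 * b1.card = ∑ _f ∈ b1, 320 := by rw [sum_const, smul_eq_mul, mul_comm]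
        _ ≤ ∑ f ∈ b1, (sel f ∩ Z).card := sum_le_sum (fun f hf => (mem_filter.1 hf).2)
        _ ≤ ∑ f : α → Fin Q, (sel f ∩ Z).card := sum_le_sum_of_subset (subset_univ _)
    have h2 : 320 * b1.card * Q ≤ Z.card * T := by
      rw [hT, ← sum_hit Z]
      exact Nat.mul_le_mul_right _ h1
    have h3 : Z.card * T ≤ 10 * Q * T := Nat.mul_le_mul_right _ hZ.le
    have h4 : Q * (320 * b1.card) ≤ Q * (10 * T) := by
      calc Q * (320 * b1.card) = 320 * b1.card * Q := by ring
        _ ≤ 10 * Q * T := h2.trans h3
        _ = Q * (10 * T) := by ring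
    have h5 := Nat.le_of_mul_le_mul_left h4 hQ
    omega
  rcases Nat.lt_or_ge 1 Q with hQ1 | hQ1
  · set b2 := univ.filter (fun f : α → Fin Q => ∀ u ∈ Z, f u ≠ 0) with hb2
    by_cases h5 : 5 * Q ≤ Z.card
    · have hc2 : 32 * b2.card ≤ T := by
        have h1 := card_avoid (Q := Q) Z
        rw [← hb2, ← hT] at h1
        -- 32 (Q-1)^z ≤ Q^z
        have h2 : 2 * (Q - 1) ^ Q ≤ Q ^ Q := by
          obtain ⟨m, rfl⟩ : ∃ m, Q = m + 1 := ⟨Q - 1, by omega⟩
          rw [Nat.add_sub_cancel]
          have hm : 0 < m := by omega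
          -- Bernoulli: (m+1)^(m+1) = (m+1) (m+1)^m, (m+1)^m ≥ 2 m^m
          have h3 : 2 * m ^ m ≤ (m + 1) ^ m := by
            have hb : ((1 : ℚ) + m * (1 / (m : ℚ))) ≤ (1 + 1 / (m : ℚ)) ^ m :=
              one_add_mul_le_pow (by have : (0 : ℚ) ≤ 1 / (m : ℚ) := by positivity
                                     linarith) m
            have hm' : (m : ℚ) ≠ 0 := by positivity
            have e1 : (1 : ℚ) + m * (1 / (m : ℚ)) = 2 := by field_simp; norm_num
            rw [e1] at hb
            have e2 : (1 + 1 / (m : ℚ)) ^ m = ((m : ℚ) + 1) ^ m / (m : ℚ) ^ m := by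
              rw [← div_pow]; congr 1; field_simp
            rw [e2, le_div_iff₀ (by positivity)] at hb
            exact_mod_cast hb
          calc 2 * m ^ (m + 1) = m * (2 * m ^ m) := by ring
            _ ≤ (m + 1) * (m + 1) ^ m := Nat.mul_le_mul (by omega) h3
            _ = (m + 1) ^ (m + 1) := by ring
        have h3 : 32 * (Q - 1) ^ (5 * Q) ≤ Q ^ (5 * Q) := by
          calc 32 * (Q - 1) ^ (5 * Q) = (2 * (Q - 1) ^ Q) ^ 5 := by rw [mul_pow, ← pow_mul]; ring_nf
            _ ≤ (Q ^ Q) ^ 5 := Nat.pow_le_pow_left h2 5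
            _ = Q ^ (5 * Q) := by rw [← pow_mul]; ring_nf
        have h4 : 32 * (Q - 1) ^ Z.card ≤ Q ^ Z.card := by
          obtain ⟨d, hd⟩ := Nat.exists_eq_add_of_le h5
          rw [hd, pow_add, pow_add, ← mul_assoc]
          exact Nat.mul_le_mul h3 (Nat.pow_le_pow_left (by omega) d)
        have h6 : Q ^ Z.card * (32 * b2.card) ≤ Q ^ Z.card * T := by
          calc Q ^ Z.card * (32 * b2.card) = 32 * (b2.card * Q ^ Z.card) := by ring
            _ = 32 * (Q - 1) ^ Z.card * T := by rw [h1]; ring
            _ ≤ Q ^ Z.card * T := Nat.mul_le_mul_right _ h4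
        exact Nat.le_of_mul_le_mul_left h6 (by positivity)
      have hsub : badSel Q Z ⊆ b1 ∪ b2 := by
        intro f hf
        rw [badSel, mem_filter] at hf
        rw [mem_union, hb1, hb2, mem_filter, mem_filter]
        rcases hf.2 with h | ⟨_, h⟩
        · exact Or.inl ⟨mem_univ _, h⟩
        · right
          refine ⟨mem_univ _, fun u hu h0 => ?_⟩
          have : u ∈ sel f ∩ Z := by
            rw [mem_inter, sel, mem_filter]
            exact ⟨⟨mem_univ _, h0⟩, hu⟩
          rw [h] at this
          exact absurd this (notMem_empty _)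
      have := (card_le_card hsub).trans (card_union_le _ _)
      omega
    · have hsub : badSel Q Z ⊆ b1 := by
        intro f hf
        rw [badSel, mem_filter] at hf
        rw [hb1, mem_filter]
        rcases hf.2 with h | ⟨h, _⟩
        · exact ⟨mem_univ _, h⟩
        · omega
      have := card_le_card hsub
      omega
  · have hQ' : Q = 1 := by omega
    have hemp : badSel Q Z = ∅ := by
      rw [badSel, filter_eq_empty_iff]
      intro f _
      have hall : ∀ u, f u = 0 := by
        intro u
        apply Fin.ext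
        have := (f u).2
        rw [Fin.val_zero]
        omega
      have hs : sel f ∩ Z = Z := by
        ext u
        rw [mem_inter, sel, mem_filter]
        constructor
        · exact fun h => h.2
        · exact fun h => ⟨⟨mem_univ _, hall u⟩, h⟩
      rw [hs]
      rintro (h | ⟨h1, h2⟩)
      · omega
      · rw [h2, card_empty] at h1
        omega
    rw [hemp]
    simp

/-- tuples in which at least half of the coordinates are bad -/
theorem card_maj {Ω : Type*} [Fintype Ω] [DecidableEq Ω] (k : ℕ) (Bad : Finset Ω)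
    (hB : 16 * Bad.card ≤ Fintype.card Ω) :
    2 ^ k * (univ.filter (fun w : Fin k → Ω => k ≤ 2 * (univ.filter (fun j => w j ∈ Bad)).card)).card ≤
      Fintype.card (Fin k → Ω) := by
  set T := Fintype.card Ω with hT
  have h1 : (univ.filter (fun w : Fin k → Ω => k ≤ 2 * (univ.filter (fun j => w j ∈ Bad)).card)) ⊆
      ((univ : Finset (Finset (Fin k))).filter (fun I => k ≤ 2 * I.card)).biUnion
        (fun I => Fintype.piFinset (fun j => if j ∈ I then Bad else univ)) := by
    intro w hw
    rw [mem_filter] at hw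
    rw [mem_biUnion]
    refine ⟨univ.filter (fun j => w j ∈ Bad), mem_filter.2 ⟨mem_univ _, hw.2⟩, ?_⟩
    rw [Fintype.mem_piFinset]
    intro j
    split_ifs with h
    · exact (mem_filter.1 h).2
    · exact mem_univ _
  have h2 : ∀ I : Finset (Fin k), k ≤ 2 * I.card →
      4 ^ k * (Fintype.piFinset (fun j => if j ∈ I then Bad else (univ : Finset Ω))).card ≤ T ^ k := by
    intro I hI
    rw [Fintype.card_piFinset]
    have h3 : ∀ j, (if j ∈ I then Bad else (univ : Finset Ω)).card = if j ∈ I then Bad.card else T := by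
      intro j; split_ifs <;> simp [hT]
    simp only [h3]
    rw [prod_ite, prod_const, prod_const]
    have h4 : (univ.filter (fun u => u ∈ I)).card = I.card := by congr 1; ext u; simp
    have h5 : (univ.filter (fun u => u ∉ I)).card + I.card = k := by
      have : univ.filter (fun u => u ∉ I) = Iᶜ := by ext u; simp
      rw [this, card_compl, Fintype.card_fin]
      have := card_le_univ I
      rw [Fintype.card_fin] at this
      omega
    rw [h4]
    calc 4 ^ k * (Bad.card ^ I.card * T ^ (univ.filter (fun u => u ∉ I)).card)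
        ≤ 4 ^ (2 * I.card) * (Bad.card ^ I.card * T ^ (univ.filter (fun u => u ∉ I)).card) :=
          Nat.mul_le_mul_right _ (Nat.pow_le_pow_right (by norm_num) hI)
      _ = (16 * Bad.card) ^ I.card * T ^ (univ.filter (fun u => u ∉ I)).card := by
          rw [pow_mul, mul_pow]; norm_num; ring
      _ ≤ T ^ I.card * T ^ (univ.filter (fun u => u ∉ I)).card :=
          Nat.mul_le_mul_right _ (Nat.pow_le_pow_left hB _)
      _ = T ^ k := by rw [← pow_add, add_comm, h5]
  have h6 : 4 ^ k * (univ.filter (fun w : Fin k → Ω => k ≤ 2 * (univ.filter (fun j => w j ∈ Bad)).card)).card ≤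
      2 ^ k * T ^ k := by
    calc 4 ^ k * (univ.filter (fun w : Fin k → Ω => k ≤ 2 * (univ.filter (fun j => w j ∈ Bad)).card)).card
        ≤ 4 ^ k * ∑ I ∈ (univ : Finset (Finset (Fin k))).filter (fun I => k ≤ 2 * I.card),
            (Fintype.piFinset (fun j => if j ∈ I then Bad else (univ : Finset Ω))).card :=
          Nat.mul_le_mul_left _ ((card_le_card h1).trans card_biUnion_le)
      _ = ∑ I ∈ (univ : Finset (Finset (Fin k))).filter (fun I => k ≤ 2 * I.card),
            4 ^ k * (Fintype.piFinset (fun j => if j ∈ I then Bad else (univ : Finset Ω))).card := by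
          rw [mul_sum]
      _ ≤ ∑ I ∈ (univ : Finset (Finset (Fin k))).filter (fun I => k ≤ 2 * I.card), T ^ k :=
          sum_le_sum fun I hI => h2 I (mem_filter.1 hI).2
      _ ≤ 2 ^ k * T ^ k := by
          rw [sum_const, smul_eq_mul]
          refine Nat.mul_le_mul_right _ ((card_filter_le _ _).trans ?_)
          rw [card_univ, Fintype.card_finset, Fintype.card_fin]
  have h7 : Fintype.card (Fin k → Ω) = T ^ k := by
    rw [Fintype.card_fun, Fintype.card_fin]
  rw [h7]
  have h8 : (4 : ℕ) ^ k = 2 ^ k * 2 ^ k := by rw [← mul_pow]; norm_num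
  rw [h8, mul_assoc] at h6
  exact Nat.le_of_mul_le_mul_left h6 (by positivity)

/-- Covering: if every `x` is good for at least half of `Ω`, few elements of `Ω` suffice. -/
theorem cover {X Ω : Type*} [DecidableEq X] [Fintype Ω] [Nonempty Ω] (G : X → Ω → Prop) [∀ x w, Decidable (G x w)] :
    ∀ (r : ℕ) (S : Finset X), S.card < 2 ^ r →
      (∀ x ∈ S, Fintype.card Ω ≤ 2 * (univ.filter (fun w => G x w)).card) →
      ∃ f : Fin r → Ω, ∀ x ∈ S, ∃ j, G x (f j) := by
  intro r
  induction r with
  | zero =>
    intro S hS _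
    refine ⟨fun j => Classical.arbitrary Ω, fun x hx => ?_⟩
    have : 0 < S.card := card_pos.2 ⟨x, hx⟩
    rw [pow_zero] at hS
    omega
  | succ r ih =>
    intro S hS hG
    -- a good element for at least half of S
    obtain ⟨w0, hw0⟩ : ∃ w0 : Ω, S.card ≤ 2 * (S.filter (fun x => G x w0)).card := by
      by_contra hcon
      push Not at hcon
      have h1 : ∑ w : Ω, 2 * (S.filter (fun x => G x w)).card < ∑ _w : Ω, S.card :=
        sum_lt_sum_of_nonempty univ_nonempty (fun w _ => hcon w)
      have h2 : ∑ w : Ω, (S.filter (fun x => G x w)).card = ∑ x ∈ S, (univ.filter (fun w => G x w)).card := by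
        have a1 : ∀ w : Ω, (S.filter (fun x => G x w)).card = ∑ x ∈ S, if G x w then 1 else 0 := by
          intro w; rw [card_filter]
        have a2 : ∀ x : X, (univ.filter (fun w => G x w)).card = ∑ w : Ω, if G x w then 1 else 0 := by
          intro x; rw [card_filter]
        simp only [a1, a2]
        rw [sum_comm]
      have h3 : ∑ x ∈ S, Fintype.card Ω ≤ ∑ x ∈ S, 2 * (univ.filter (fun w => G x w)).card :=
        sum_le_sum fun x hx => hG x hx
      rw [← mul_sum, h2, sum_const, smul_eq_mul, card_univ] at h1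
      rw [← mul_sum, sum_const, smul_eq_mul] at h3
      rw [mul_comm (Fintype.card Ω)] at h1
      omega
    have hS' : (S.filter (fun x => ¬ G x w0)).card < 2 ^ r := by
      have := card_filter_add_card_filter_not (s := S) (fun x => G x w0)
      rw [pow_succ] at hS
      omega
    obtain ⟨f, hf⟩ := ih (S.filter (fun x => ¬ G x w0)) hS' (fun x hx => hG x (mem_filter.1 hx).1)
    refine ⟨Fin.cons w0 f, fun x hx => ?_⟩
    by_cases hx0 : G x w0
    · exact ⟨0, by simpa using hx0⟩
    · obtain ⟨j, hj⟩ := hf x (mem_filter.2 ⟨hx, hx0⟩)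
      exact ⟨j.succ, by simpa using hj⟩

end Pool.Agent.Helper73_EG
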