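import Mathlib
import Pool.Agent.Helper73_EG.Moment
import Pool.Agent.Helper73_EG.Sample

/-! A colouring of the subsets of an `n`-set with quasi-polynomially many colours such that two
subsets which agree outside one of `s` given sets `D l`, are disjoint inside it and are not both
empty there get different colours. -/

namespace Pool.Agent.Helper73_EG

open Finset

noncomputable section

attribute [local instance] Classical.propDecidable

/-- `w` is a good tuple for `X` -/
def goodT {α ι : Type*} [Fintype α] [DecidableEq α] (D : ι → Finset α) (k i : ℕ) (X : Finset α)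
    (w : Fin k → (α → Fin (2 ^ i))) : Prop :=
  ∀ l : ι, (D l ∩ X).card < 10 * 2 ^ i → 2 * (univ.filter (fun j => w j ∈ badSel (2 ^ i) (D l ∩ X))).card < k

theorem exists_good {α ι : Type*} [Fintype α] [DecidableEq α] [Fintype ι] (D : ι → Finset α) (k i : ℕ)
    (hk : 2 * Fintype.card ι ≤ 2 ^ k) (X : Finset α) :
    Fintype.card (Fin k → (α → Fin (2 ^ i))) ≤
      2 * (univ.filter (fun w : Fin k → (α → Fin (2 ^ i)) => goodT D k i X w)).card := by
  set T := Fintype.card (Fin k → (α → Fin (2 ^ i))) with hT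
  have h1 : (univ.filter (fun w : Fin k → (α → Fin (2 ^ i)) => ¬ goodT D k i X w)) ⊆
      ((univ : Finset ι).filter (fun l => (D l ∩ X).card < 10 * 2 ^ i)).biUnion (fun l =>
        univ.filter (fun w : Fin k → (α → Fin (2 ^ i)) =>
          k ≤ 2 * (univ.filter (fun j => w j ∈ badSel (2 ^ i) (D l ∩ X))).card)) := by
    intro w hw
    rw [mem_filter, goodT] at hw
    push Not at hw
    obtain ⟨l, hl1, hl2⟩ := hw.2
    rw [mem_biUnion]
    exact ⟨l, mem_filter.2 ⟨mem_univ _, hl1⟩, mem_filter.2 ⟨mem_univ _, hl2⟩⟩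
  have h2 : 2 ^ k * (univ.filter (fun w : Fin k → (α → Fin (2 ^ i)) => ¬ goodT D k i X w)).card ≤
      Fintype.card ι * T := by
    calc 2 ^ k * (univ.filter (fun w : Fin k → (α → Fin (2 ^ i)) => ¬ goodT D k i X w)).card
        ≤ 2 ^ k * ∑ l ∈ (univ : Finset ι).filter (fun l => (D l ∩ X).card < 10 * 2 ^ i),
            (univ.filter (fun w : Fin k → (α → Fin (2 ^ i)) =>
              k ≤ 2 * (univ.filter (fun j => w j ∈ badSel (2 ^ i) (D l ∩ X))).card)).card :=
          Nat.mul_le_mul_left _ ((card_le_card h1).trans card_biUnion_le)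
      _ = ∑ l ∈ (univ : Finset ι).filter (fun l => (D l ∩ X).card < 10 * 2 ^ i),
            2 ^ k * (univ.filter (fun w : Fin k → (α → Fin (2 ^ i)) =>
              k ≤ 2 * (univ.filter (fun j => w j ∈ badSel (2 ^ i) (D l ∩ X))).card)).card := by
          rw [mul_sum]
      _ ≤ ∑ l ∈ (univ : Finset ι).filter (fun l => (D l ∩ X).card < 10 * 2 ^ i), T := by
          refine sum_le_sum fun l hl => ?_
          exact card_maj k _ (badSel_card _ _ (mem_filter.1 hl).2)
      _ ≤ Fintype.card ι * T := by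
          rw [sum_const, smul_eq_mul, ← card_univ]
          exact Nat.mul_le_mul_right _ (card_filter_le _ _)
  have h3 : (univ.filter (fun w : Fin k → (α → Fin (2 ^ i)) => goodT D k i X w)).card +
      (univ.filter (fun w : Fin k → (α → Fin (2 ^ i)) => ¬ goodT D k i X w)).card = T := by
    rw [card_filter_add_card_filter_not, card_univ]
  set G := (univ.filter (fun w : Fin k → (α → Fin (2 ^ i)) => goodT D k i X w)).card
  set B := (univ.filter (fun w : Fin k → (α → Fin (2 ^ i)) => ¬ goodT D k i X w)).card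
  have h4 : 2 ^ k * (2 * B) ≤ 2 ^ k * T := by
    calc 2 ^ k * (2 * B) = 2 * (2 ^ k * B) := by ring
      _ ≤ 2 * (Fintype.card ι * T) := Nat.mul_le_mul_left _ h2
      _ = (2 * Fintype.card ι) * T := by ring
      _ ≤ 2 ^ k * T := Nat.mul_le_mul_right _ hk
  have h5 := Nat.le_of_mul_le_mul_left h4 (by positivity)
  omega

theorem exists_fam {α ι : Type*} [Fintype α] [DecidableEq α] [Fintype ι] (D : ι → Finset α) (k i : ℕ)
    (hk : 2 * Fintype.card ι ≤ 2 ^ k) :
    ∃ f : Fin (Fintype.card α + 1) → (Fin k → (α → Fin (2 ^ i))), ∀ X : Finset α, ∃ j, goodT D k i X (f j) := by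
  obtain ⟨f, hf⟩ := cover (fun X (w : Fin k → (α → Fin (2 ^ i))) => goodT D k i X w) (Fintype.card α + 1)
    (univ : Finset (Finset α)) (by
      rw [card_univ, Fintype.card_finset]
      exact Nat.pow_lt_pow_right (by norm_num) (Nat.lt_succ_self _))
    (fun X _ => exists_good D k i hk X)
  exact ⟨f, fun X => hf X (mem_univ _)⟩

theorem two_maj {k : ℕ} (A B : Finset (Fin k)) (hA : 2 * A.card < k) (hB : 2 * B.card < k) :
    ∃ j, j ∉ A ∧ j ∉ B := by
  by_contra hcon
  push Not at hcon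
  have h4 : (univ : Finset (Fin k)) ⊆ A ∪ B := by
    intro j _
    rw [mem_union]
    by_cases h5 : j ∈ A
    · exact Or.inl h5
    · exact Or.inr (hcon j h5)
  have h6 := (card_le_card h4).trans (card_union_le _ _)
  rw [card_univ, Fintype.card_fin] at h6
  omega

/-- the type of colours -/
abbrev Colr (n k R P : ℕ) : Type := Fin R → Fin (n + 1) × (Fin k → (Fin 640 → ZMod P))

theorem exists_chrom {α ι : Type*} [Fintype α] [DecidableEq α] [Fintype ι] (D : ι → Finset α) (k R P : ℕ)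
    [Fact P.Prime] (hk : 2 * Fintype.card ι ≤ 2 ^ k) (hR : Fintype.card α < 2 ^ R)
    (e : α → ZMod P) (he : Function.Injective e) :
    ∃ Φ : Finset α → Colr (Fintype.card α) k R P, ∀ (l : ι) (X Y : Finset α), X \ D l = Y \ D l →
      Disjoint (X ∩ D l) (Y ∩ D l) → (X ∩ D l).Nonempty → Φ X ≠ Φ Y := by
  choose f hf using fun i => exists_fam D k i hk
  choose idx hidx using hf
  refine ⟨fun X i => (idx i X, fun j => mom 640 e (X ∩ sel (f i (idx i X) j))), ?_⟩
  intro l X Y hXY hdis hne hΦ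
  set b := max (D l ∩ X).card (D l ∩ Y).card with hb
  have hb1 : 1 ≤ b := by
    rw [inter_comm] at hne
    exact (card_pos.2 hne).trans_le (le_max_left _ _)
  have hb2 : b < 2 ^ R := by
    refine lt_of_le_of_lt ?_ hR
    exact max_le (card_le_univ _) (card_le_univ _)
  set i := Nat.log 2 (b / 5) with hi
  have hbi : b < 10 * 2 ^ i := by
    have h1 : b / 5 < 2 ^ (i + 1) := Nat.lt_pow_succ_log_self (by norm_num) _
    rw [pow_succ] at h1
    omega
  have hbi' : 5 * 2 ^ i ≤ b ∨ i = 0 := by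
    rcases Nat.eq_zero_or_pos (b / 5) with h0 | h0
    · right; rw [hi, h0]; simp
    · left
      have h1 : 2 ^ i ≤ b / 5 := Nat.pow_log_le_self 2 (by omega)
      omega
  have hiR : i < R := by
    rcases hbi' with h1 | h1
    · have h2 : 2 ^ i < 2 ^ R := by omega
      exact (Nat.pow_lt_pow_iff_right (by norm_num)).1 h2
    · rw [h1]
      rcases Nat.eq_zero_or_pos R with h0 | h0
      · rw [h0, pow_zero] at hb2; omega
      · exact h0
  have h1 := congrFun hΦ ⟨i, hiR⟩
  simp only [Prod.mk.injEq] at h1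
  obtain ⟨h2, h3⟩ := h1
  have gX := hidx i X l (lt_of_le_of_lt (le_max_left _ _) hbi)
  have gY := hidx i Y l (lt_of_le_of_lt (le_max_right _ _) hbi)
  rw [← h2] at gY h3
  set w := f i (idx i X) with hw
  obtain ⟨j, hjX0, hjY0⟩ := two_maj _ _ gX gY
  have hjX : w j ∉ badSel (2 ^ i) (D l ∩ X) := fun h => hjX0 (mem_filter.2 ⟨mem_univ _, h⟩)
  have hjY : w j ∉ badSel (2 ^ i) (D l ∩ Y) := fun h => hjY0 (mem_filter.2 ⟨mem_univ _, h⟩)
  rw [badSel, mem_filter] at hjX hjY
  push Not at hjX hjY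
  obtain ⟨hX1, hX2⟩ := hjX (mem_univ _)
  obtain ⟨hY1, hY2⟩ := hjY (mem_univ _)
  have h4 := congrFun h3 j
  have hQ1 : i = 0 → 2 ^ i = 1 := fun h => by rw [h, pow_zero]
  have hdisj : ∀ u, u ∈ D l → u ∈ X → u ∉ Y := by
    intro u hu hX hY
    exact (disjoint_left.1 hdis) (mem_inter.2 ⟨hX, hu⟩) (mem_inter.2 ⟨hY, hu⟩)
  have hout : ∀ u, u ∉ D l → (u ∈ X ↔ u ∈ Y) := by
    intro u hu
    have : u ∈ X \ D l ↔ u ∈ Y \ D l := by rw [hXY]
    rw [mem_sdiff, mem_sdiff] at this
    exact ⟨fun h => (this.1 ⟨h, hu⟩).1, fun h => (this.2 ⟨h, hu⟩).1⟩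
  refine mom_ne he ?_ ?_ h4
  · intro hEq
    have hmax : (D l ∩ X).card = b ∨ (D l ∩ Y).card = b := by
      rw [hb]
      rcases le_total (D l ∩ X).card (D l ∩ Y).card with h | h
      · right; rw [max_eq_right h]
      · left; rw [max_eq_left h]
    rcases hmax with hm | hm
    · have hn : sel (w j) ∩ (D l ∩ X) ≠ ∅ := by
        refine nonempty_iff_ne_empty.1 (hX2 ?_)
        rw [hm]
        rcases hbi' with h | h
        · exact Or.inl h
        · exact Or.inr ⟨hQ1 h, hb1⟩
      obtain ⟨u, hu⟩ := nonempty_iff_ne_empty.2 hn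
      rw [mem_inter, mem_inter] at hu
      have : u ∈ X ∩ sel (w j) := mem_inter.2 ⟨hu.2.2, hu.1⟩
      rw [hEq, mem_inter] at this
      exact hdisj u hu.2.1 hu.2.2 this.1
    · have hn : sel (w j) ∩ (D l ∩ Y) ≠ ∅ := by
        refine nonempty_iff_ne_empty.1 (hY2 ?_)
        rw [hm]
        rcases hbi' with h | h
        · exact Or.inl h
        · exact Or.inr ⟨hQ1 h, hb1⟩
      obtain ⟨u, hu⟩ := nonempty_iff_ne_empty.2 hn
      rw [mem_inter, mem_inter] at hu
      have : u ∈ Y ∩ sel (w j) := mem_inter.2 ⟨hu.2.2, hu.1⟩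
      rw [← hEq, mem_inter] at this
      exact hdisj u hu.2.1 this.1 hu.2.2
  · have hsub : (X ∩ sel (w j)) \ (Y ∩ sel (w j)) ∪ (Y ∩ sel (w j)) \ (X ∩ sel (w j)) ⊆
        (sel (w j) ∩ (D l ∩ X)) ∪ (sel (w j) ∩ (D l ∩ Y)) := by
      intro u hu
      simp only [mem_union, mem_sdiff, mem_inter] at hu ⊢
      by_cases hD : u ∈ D l
      · rcases hu with ⟨⟨h1, h2⟩, _⟩ | ⟨⟨h1, h2⟩, _⟩
        · exact Or.inl ⟨h2, hD, h1⟩
        · exact Or.inr ⟨h2, hD, h1⟩
      · exfalso
        have h0 := hout u hD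
        rcases hu with ⟨⟨h1, h2⟩, h3⟩ | ⟨⟨h1, h2⟩, h3⟩
        · exact h3 ⟨h0.1 h1, h2⟩
        · exact h3 ⟨h0.2 h1, h2⟩
    have := (card_le_card hsub).trans (card_union_le _ _)
    omega

theorem card_colr (n k R P : ℕ) [NeZero P] : Fintype.card (Colr n k R P) = ((n + 1) * (P ^ 640) ^ k) ^ R := by
  simp [Colr, Fintype.card_prod, ZMod.card]

end

end Pool.Agent.Helper73_EG
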