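import Mathlib

/-! Polynomial hashing: a family of functions any two of which agree in at most `s` points. -/

namespace Pool.Agent.Helper73_EG

open Finset

theorem exists_hash {V L : Type*} [Fintype V] [Fintype L] (P s : ℕ) [Fact P.Prime]
    (i : L → ZMod P) (hi : Function.Injective i) (hV : Fintype.card V ≤ P ^ (s + 1)) :
    ∃ f : V → L → ZMod P, ∀ u v, u ≠ v → (univ.filter (fun a => f u a = f v a)).card ≤ s := by
  classical
  obtain ⟨φ⟩ : Nonempty (V ↪ (Fin (s + 1) → ZMod P)) := by
    apply Function.Embedding.nonempty_of_card_le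
    rw [Fintype.card_fun, Fintype.card_fin, ZMod.card]
    exact hV
  refine ⟨fun u a => ∑ j : Fin (s + 1), φ u j * i a ^ (j : ℕ), ?_⟩
  intro u v huv
  let p : Polynomial (ZMod P) := ∑ j : Fin (s + 1), Polynomial.C (φ u j - φ v j) * Polynomial.X ^ (j : ℕ)
  have hcoef : ∀ j : Fin (s + 1), p.coeff j = φ u j - φ v j := by
    intro j
    simp only [p, Polynomial.finsetSum_coeff, Polynomial.coeff_C_mul, Polynomial.coeff_X_pow]
    rw [sum_eq_single j]
    · simp
    · intro b _ hb
      rw [if_neg (fun h => hb (Fin.ext h.symm)), mul_zero]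
    · intro h; exact absurd (mem_univ _) h
  have hp0 : p ≠ 0 := by
    intro h
    apply huv
    apply φ.injective
    funext j
    have := hcoef j
    rw [h, Polynomial.coeff_zero] at this
    exact (sub_eq_zero.1 this.symm)
  have hdeg : p.natDegree ≤ s := by
    refine Polynomial.natDegree_sum_le_of_forall_le _ _ fun j _ => ?_
    refine (Polynomial.natDegree_C_mul_X_pow_le _ _).trans ?_
    have := j.2
    omega
  have hsub : (univ.filter (fun a => ∑ j : Fin (s + 1), φ u j * i a ^ (j : ℕ) = ∑ j : Fin (s + 1), φ v j * i a ^ (j : ℕ))).image i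
      ⊆ p.roots.toFinset := by
    intro z hz
    rw [mem_image] at hz
    obtain ⟨a, ha, rfl⟩ := hz
    rw [Multiset.mem_toFinset, Polynomial.mem_roots hp0, Polynomial.IsRoot]
    simp only [p, Polynomial.eval_finset_sum, Polynomial.eval_mul, Polynomial.eval_C, Polynomial.eval_pow,
      Polynomial.eval_X, sub_mul, sum_sub_distrib]
    rw [sub_eq_zero]
    exact (mem_filter.1 ha).2
  calc (univ.filter (fun a => ∑ j : Fin (s + 1), φ u j * i a ^ (j : ℕ) = ∑ j : Fin (s + 1), φ v j * i a ^ (j : ℕ))).card
      = ((univ.filter (fun a => ∑ j : Fin (s + 1), φ u j * i a ^ (j : ℕ) = ∑ j : Fin (s + 1), φ v j * i a ^ (j : ℕ))).image i).card :=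
        (card_image_of_injective _ hi).symm
    _ ≤ p.roots.toFinset.card := card_le_card hsub
    _ ≤ Multiset.card p.roots := Multiset.toFinset_card_le _
    _ ≤ p.natDegree := Polynomial.card_roots' p
    _ ≤ s := hdeg

end Pool.Agent.Helper73_EG
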