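import Mathlib
import Pool.Agent.Helper73_EG.QLemma

/-! One step of the product construction for sets with at most seven points. -/

namespace Pool.Agent.Helper73_EG

open Finset

theorem arith7 {V : Type*} [DecidableEq V] (U : Finset V) (f : V → ℕ) (u0 : V) (hu0 : u0 ∈ U)
    (h1 : ∀ u ∈ U, 1 ≤ f u) (hmax : ∀ u ∈ U, f u ≤ f u0) (h7 : ∑ u ∈ U, f u ≤ 7) :
    ∑ u ∈ U, (f u - 1) ≤ f u0 + 1 := by
  set W := (U.erase u0).filter (fun u => 2 ≤ f u) with hW
  have hE : ∑ u ∈ U.erase u0, (f u - 1) = ∑ u ∈ W, (f u - 1) := by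
    rw [hW, sum_filter]
    refine sum_congr rfl fun u _ => ?_
    split_ifs with h
    · rfl
    · omega
  have hsum : ∑ u ∈ U, (f u - 1) = (f u0 - 1) + ∑ u ∈ W, (f u - 1) := by
    rw [← add_sum_erase U _ hu0, hE]
  have hF : f u0 + ∑ u ∈ W, f u ≤ 7 := by
    refine le_trans ?_ h7
    rw [← add_sum_erase U _ hu0]
    exact Nat.add_le_add_left (sum_le_sum_of_subset (filter_subset _ _)) _
  have hWf : ∑ u ∈ W, f u = ∑ u ∈ W, (f u - 1) + W.card := by
    rw [card_eq_sum_ones, ← sum_add_distrib]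
    refine sum_congr rfl fun u hu => ?_
    have := (mem_filter.1 hu).2
    omega
  have hEW : ∑ u ∈ W, (f u - 1) ≤ W.card * (f u0 - 1) := by
    rw [← smul_eq_mul, ← sum_const]
    refine sum_le_sum fun u hu => ?_
    have := hmax u (mem_of_mem_erase (mem_filter.1 hu).1)
    omega
  have h01 := h1 u0 hu0
  set E := ∑ u ∈ W, (f u - 1)
  set M := f u0
  set w := W.card
  rw [hsum]
  by_contra hcon
  have hE3 : 3 ≤ E := by omega
  have hw : 1 ≤ w := by
    by_contra h0
    have h00 : w = 0 := by omega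
    rw [h00, zero_mul] at hEW
    omega
  have hMw : M + w ≤ 4 := by omega
  have hM : M ≤ 3 := by omega
  have hw3 : w ≤ 3 := by omega
  interval_cases M <;> interval_cases w <;> omega

section
variable {V B Γ Λ G : Type*} [DecidableEq V] [DecidableEq B] [DecidableEq Γ] [DecidableEq Λ] [DecidableEq G]

/-- the colour of two points of the product -/
def kap7 (lam : V → V → Γ) (lab : V → B → B → Λ) (g : V → V → B → B → G) (p q : V × B) : Λ ⊕ (Γ × G) :=
  if p.1 = q.1 then Sum.inl (lab p.1 p.2 q.2) else Sum.inr (lam p.1 q.1, g p.1 q.1 p.2 q.2)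

/-- all sets with at most seven points are good -/
def Good7 (lam : V → V → Γ) : Prop := ∀ U : Finset V, U.card ≤ 7 → U.card ≤ (labs lam U).card + 1

theorem step7 (lam : V → V → Γ) (lab : V → B → B → Λ) (g : V → V → B → B → G)
    (hlam : Good7 lam) (hlab : ∀ u, Good7 (lab u))
    (hbr : ∀ u v, u ≠ v → ∀ b b' c c', b ≠ b' → c ≠ c' → lab u b b' = lab v c c' →
      3 ≤ ({g u v b c, g u v b c', g u v b' c, g u v b' c'} : Finset G).card) :
    Good7 (kap7 lam lab g) := by
  intro S hS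
  rcases S.eq_empty_or_nonempty with rfl | hSne
  · simp
  set U := S.image Prod.fst with hU
  let F : V → Finset B := fun u => (S.filter (fun p => p.1 = u)).image Prod.snd
  have hF : ∀ u b, b ∈ F u ↔ (u, b) ∈ S := by
    intro u b
    simp only [F, mem_image, mem_filter, Prod.exists]
    constructor
    · rintro ⟨x, y, ⟨h1, rfl⟩, rfl⟩; exact h1
    · intro h; exact ⟨u, b, ⟨h, rfl⟩, rfl⟩
  have hFc : ∀ u, (F u).card = (S.filter (fun p => p.1 = u)).card := by
    intro u
    apply card_image_of_injOn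
    intro p hp q hq hpq
    rw [mem_coe, mem_filter] at hp hq
    exact Prod.ext (hp.2.trans hq.2.symm) hpq
  have hsum : ∑ u ∈ U, (F u).card = S.card := by
    simp only [hFc]
    exact (card_eq_sum_card_fiberwise (fun p hp => mem_image_of_mem _ hp)).symm
  have hF1 : ∀ u ∈ U, 1 ≤ (F u).card := by
    intro u hu
    rw [hU, mem_image] at hu
    obtain ⟨p, hp, rfl⟩ := hu
    exact card_pos.2 ⟨p.2, (hF _ _).2 hp⟩
  have hF7 : ∀ u ∈ U, (F u).card ≤ 7 := by
    intro u hu
    refine le_trans ?_ hS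
    rw [← hsum]
    exact single_le_sum (f := fun u => (F u).card) (fun _ _ => Nat.zero_le _) hu
  have hUc : U.card ≤ 7 := card_image_le.trans hS
  have hminus : ∑ u ∈ U, ((F u).card - 1) + U.card = S.card := by
    rw [← hsum, card_eq_sum_ones, ← sum_add_distrib]
    refine sum_congr rfl fun u hu => ?_
    have := hF1 u hu
    omega
  set Ls : Finset Λ := U.biUnion (fun u => labs (lab u) (F u)) with hLs
  set Rs : Finset (Γ × G) := (S.offDiag.filter (fun e => e.1.1 ≠ e.2.1)).image
    (fun e => (lam e.1.1 e.2.1, g e.1.1 e.2.1 e.1.2 e.2.2)) with hRs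
  have hmemR : ∀ u v b c, (u, b) ∈ S → (v, c) ∈ S → u ≠ v → (lam u v, g u v b c) ∈ Rs := by
    intro u v b c hu hv huv
    rw [hRs, mem_image]
    refine ⟨((u, b), (v, c)), ?_, rfl⟩
    rw [mem_filter, mem_offDiag]
    exact ⟨⟨hu, hv, fun h => huv (congrArg Prod.fst h)⟩, huv⟩
  have hsub : Ls.disjSum Rs ⊆ labs (kap7 lam lab g) S := by
    intro z hz
    rw [mem_disjSum] at hz
    rw [mem_labs]
    rcases hz with ⟨l, hl, rfl⟩ | ⟨r, hr, rfl⟩
    · rw [hLs, mem_biUnion] at hl
      obtain ⟨u, _, hl⟩ := hl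
      rw [mem_labs] at hl
      obtain ⟨b, hb, c, hc, hbc, rfl⟩ := hl
      refine ⟨(u, b), (hF _ _).1 hb, (u, c), (hF _ _).1 hc, fun h => hbc (congrArg Prod.snd h), ?_⟩
      unfold kap7
      rw [if_pos rfl]
    · rw [hRs, mem_image] at hr
      obtain ⟨⟨p, q⟩, he, rfl⟩ := hr
      rw [mem_filter, mem_offDiag] at he
      refine ⟨p, he.1.1, q, he.1.2.1, he.1.2.2, ?_⟩
      unfold kap7
      rw [if_neg he.2]
  have hcard : Ls.card + Rs.card ≤ (labs (kap7 lam lab g) S).card := by
    rw [← card_disjSum]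
    exact card_le_card hsub
  have hlamU := hlam U hUc
  have hproj : labs lam U ⊆ Rs.image Prod.fst := by
    intro γ hγ
    rw [mem_labs] at hγ
    obtain ⟨u, hu, v, hv, huv, rfl⟩ := hγ
    rw [hU, mem_image] at hu hv
    obtain ⟨⟨u, b⟩, hb, rfl⟩ := hu
    obtain ⟨⟨v, c⟩, hc, rfl⟩ := hv
    rw [mem_image]
    exact ⟨_, hmemR u v b c hb hc huv, rfl⟩
  by_cases hdis : ∀ u ∈ U, ∀ v ∈ U, u ≠ v → Disjoint (labs (lab u) (F u)) (labs (lab v) (F v))
  · have h1 : Ls.card = ∑ u ∈ U, (labs (lab u) (F u)).card := by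
      rw [hLs]
      exact card_biUnion (fun u hu v hv huv => hdis u hu v hv huv)
    have h2 : ∑ u ∈ U, ((F u).card - 1) ≤ Ls.card := by
      rw [h1]
      refine sum_le_sum fun u hu => ?_
      have := hlab u (F u) (hF7 u hu)
      omega
    have h3 : (labs lam U).card ≤ Rs.card := (card_le_card hproj).trans card_image_le
    omega
  · push Not at hdis
    obtain ⟨u, hu, v, hv, huv, hnd⟩ := hdis
    rw [not_disjoint_iff] at hnd
    obtain ⟨ρ, hρu, hρv⟩ := hnd
    rw [mem_labs] at hρu hρv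
    obtain ⟨b, hb, b', hb', hbb, hρ⟩ := hρu
    obtain ⟨c, hc, c', hc', hcc, hρ'⟩ := hρv
    have hT := hbr u v huv b b' c c' hbb hcc (hρ.trans hρ'.symm)
    set T : Finset G := {g u v b c, g u v b c', g u v b' c, g u v b' c'} with hTdef
    have hTR : T.image (fun z => (lam u v, z)) ⊆ Rs.filter (fun z => z.1 = lam u v) := by
      intro z hz
      rw [mem_image] at hz
      obtain ⟨y, hy, rfl⟩ := hz
      rw [mem_filter]
      refine ⟨?_, rfl⟩
      rw [hTdef, mem_insert, mem_insert, mem_insert, mem_singleton] at hy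
      rcases hy with rfl | rfl | rfl | rfl
      · exact hmemR _ _ _ _ ((hF _ _).1 hb) ((hF _ _).1 hc) huv
      · exact hmemR _ _ _ _ ((hF _ _).1 hb) ((hF _ _).1 hc') huv
      · exact hmemR _ _ _ _ ((hF _ _).1 hb') ((hF _ _).1 hc) huv
      · exact hmemR _ _ _ _ ((hF _ _).1 hb') ((hF _ _).1 hc') huv
    have h1 : 3 ≤ (Rs.filter (fun z => z.1 = lam u v)).card := by
      refine hT.trans ?_
      rw [← card_image_of_injective T (f := fun z => (lam u v, z)) (fun _ _ h => congrArg Prod.snd h)]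
      exact card_le_card hTR
    have h2 : (labs lam U).card - 1 ≤ (Rs.filter (fun z => ¬ z.1 = lam u v)).card := by
      have h3 : (labs lam U).erase (lam u v) ⊆ (Rs.filter (fun z => ¬ z.1 = lam u v)).image Prod.fst := by
        intro γ hγ
        rw [mem_erase] at hγ
        obtain ⟨hγ1, hγ2⟩ := hγ
        have := hproj hγ2
        rw [mem_image] at this ⊢
        obtain ⟨z, hz, rfl⟩ := this
        exact ⟨z, mem_filter.2 ⟨hz, hγ1⟩, rfl⟩
      exact pred_card_le_card_erase.trans ((card_le_card h3).trans card_image_le)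
    have h3 := card_filter_add_card_filter_not (s := Rs) (fun z => z.1 = lam u v)
    -- the largest fibre
    obtain ⟨u0, hu0, hmax⟩ := exists_max_image U (fun u => (F u).card) ⟨u, hu⟩
    have h4 : (F u0).card ≤ Ls.card + 1 := by
      refine (hlab u0 (F u0) (hF7 u0 hu0)).trans (Nat.add_le_add_right ?_ 1)
      exact card_le_card (subset_biUnion_of_mem (fun u => labs (lab u) (F u)) hu0)
    have h5 : ∑ u ∈ U, ((F u).card - 1) ≤ (F u0).card + 1 := arith7 U (fun u => (F u).card) u0 hu0 hF1 hmax (by rw [hsum]; exact hS)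
    have h6 : 1 ≤ (labs lam U).card := by
      apply card_pos.2
      exact ⟨lam u v, mem_labs.2 ⟨u, hu, v, hv, huv, rfl⟩⟩
    have h7 := hF1 u0 hu0
    omega

end

end Pool.Agent.Helper73_EG
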