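import Mathlib
import Pool.Agent.Helper73_EG.Step7
import Pool.Agent.Helper73_EG.Hash
import Pool.Agent.Helper73_EG.Defs

/-! The hashed product. -/

namespace Pool.Agent.Helper73_EG

open Finset

/-- a colouring of `K_N` with `k` colours in which every set with at most seven points is good -/
def Col7 (N k : ℕ) : Prop := ∃ c : Fin N → Fin N → Fin k, (∀ x y, c x y = c y x) ∧ Good7 c

/-- a block: a good colouring such that the union of any `s` classes has chromatic number at most `q` -/
def Block (M r s q : ℕ) : Prop := ∃ c : Fin M → Fin M → Fin r, (∀ x y, c x y = c y x) ∧ Good7 c ∧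
  ∀ A : Finset (Fin r), A.card ≤ s → ∃ φ : Fin M → Fin q, ∀ x y, x ≠ y → c x y ∈ A → φ x ≠ φ y

/-- refinements and restrictions of good colourings are good -/
theorem Good7.comp {V W Γ Γ' : Type*} [DecidableEq V] [DecidableEq W] [DecidableEq Γ] [DecidableEq Γ']
    {c : V → V → Γ} (h : Good7 c) {c' : W → W → Γ'} (ψ : W → V) (hψ : Function.Injective ψ)
    (hc : ∀ x y z w, x ≠ y → z ≠ w → c' x y = c' z w → c (ψ x) (ψ y) = c (ψ z) (ψ w)) : Good7 c' := by
  intro U hU
  have h1 := h (U.image ψ) (card_image_le.trans hU)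
  rw [card_image_of_injective U hψ] at h1
  refine h1.trans (Nat.add_le_add_right ?_ 1)
  refine card_le_card_of_forall_subsingleton
    (fun l l' => ∃ x y, x ≠ y ∧ c' x y = l' ∧ c (ψ x) (ψ y) = l) ?_ ?_
  · intro l hl
    rw [mem_labs] at hl
    obtain ⟨a, ha, b, hb, hab, rfl⟩ := hl
    rw [mem_image] at ha hb
    obtain ⟨x, hx, rfl⟩ := ha
    obtain ⟨y, hy, rfl⟩ := hb
    have hxy : x ≠ y := fun h => hab (by rw [h])
    exact ⟨c' x y, mem_labs.2 ⟨x, hx, y, hy, hxy, rfl⟩, x, y, hxy, rfl, rfl⟩
  · intro l' _ l1 hl1 l2 hl2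
    obtain ⟨_, x, y, hxy, h1, rfl⟩ := hl1
    obtain ⟨_, z, w, hzw, h2, rfl⟩ := hl2
    exact hc x y z w hxy hzw (h1.trans h2.symm)

theorem mm_ne {q : ℕ} {x y y' : Fin q} (h : y ≠ y') : ((min x y, max x y) : Fin q × Fin q) ≠ (min x y', max x y') := by
  intro hh
  rw [Prod.mk.injEq] at hh
  apply h
  obtain ⟨h1, h2⟩ := hh
  rcases le_total x y with a | a <;> rcases le_total x y' with b | b
  · rwa [max_eq_right a, max_eq_right b] at h2
  · rw [min_eq_left a, min_eq_right b] at h1
    rw [max_eq_right a, max_eq_left b] at h2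
    rw [h2, h1]
  · rw [min_eq_right a, min_eq_left b] at h1
    rw [max_eq_left a, max_eq_right b] at h2
    rw [h1, h2]
  · rwa [min_eq_right a, min_eq_right b] at h1

theorem mm_comm {q : ℕ} (x y : Fin q) : ((min x y, max x y) : Fin q × Fin q) = (min y x, max y x) := by
  rw [min_comm, max_comm]

/-- four products take at least three unordered values -/
theorem mm_three {q : ℕ} {x x' y y' : Fin q} (hx : x ≠ x') (hy : y ≠ y') :
    3 ≤ ({(min x y, max x y), (min x y', max x y'), (min x' y, max x' y), (min x' y', max x' y')} :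
      Finset (Fin q × Fin q)).card := by
  have a1 : ((min x y, max x y) : Fin q × Fin q) ≠ (min x y', max x y') := mm_ne hy
  have a2 : ((min x' y, max x' y) : Fin q × Fin q) ≠ (min x' y', max x' y') := mm_ne hy
  have a3 : ((min x y, max x y) : Fin q × Fin q) ≠ (min x' y, max x' y) := by
    rw [mm_comm x y, mm_comm x' y]; exact mm_ne hx
  have a4 : ((min x y', max x y') : Fin q × Fin q) ≠ (min x' y', max x' y') := by
    rw [mm_comm x y', mm_comm x' y']; exact mm_ne hx
  by_cases h1 : ((min x y, max x y) : Fin q × Fin q) = (min x' y', max x' y')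
  · have h2 : ((min x y', max x y') : Fin q × Fin q) ≠ (min x' y, max x' y) := by
      intro h2
      rw [Prod.mk.injEq] at h1 h2
      have e1 : x = y' := by
        rcases le_total x y with a | a <;> rcases le_total x' y' with b | b <;>
          simp only [min_eq_left, min_eq_right, max_eq_left, max_eq_right, a, b] at h1
        · exact absurd h1.1 hx
        · exact h1.1
        · exact h1.2
        · exact absurd h1.2 hx
      have e2 : x = y := by
        rcases le_total x y' with a | a <;> rcases le_total x' y with b | b <;>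
          simp only [min_eq_left, min_eq_right, max_eq_left, max_eq_right, a, b] at h2
        · exact absurd h2.1 hx
        · exact h2.1
        · exact h2.2
        · exact absurd h2.2 hx
      exact hy (e2.symm.trans e1)
    refine le_trans (le_of_eq ?_) (card_le_card (show ({(min x y, max x y), (min x y', max x y'), (min x' y, max x' y)} :
      Finset (Fin q × Fin q)) ⊆ _ from ?_))
    · rw [card_eq_three.2 ⟨_, _, _, a1, a3, h2, rfl⟩]
    · intro z hz
      simp only [mem_insert, mem_singleton] at hz ⊢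
      tauto
  · refine le_trans (le_of_eq ?_) (card_le_card (show ({(min x y, max x y), (min x y', max x y'), (min x' y', max x' y')} :
      Finset (Fin q × Fin q)) ⊆ _ from ?_))
    · rw [card_eq_three.2 ⟨_, _, _, a1, h1, a4, rfl⟩]
    · intro z hz
      simp only [mem_insert, mem_singleton] at hz ⊢
      tauto

theorem Col7.step {M r s q N k P : ℕ} (hB : Block M r s q) (hP : P.Prime) (hr : r ≤ P) (hN : N ≤ P ^ (s + 1))
    (hc : Col7 N k) : Col7 (N * M) (r * P + k * (q * q)) := by
  classical
  have : Fact P.Prime := ⟨hP⟩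
  obtain ⟨χ, hχs, hχg, hχp⟩ := hB
  obtain ⟨c, hcs, hcg⟩ := hc
  obtain ⟨f, hf⟩ := exists_hash (V := Fin N) (L := Fin r) P s (fun a => ((a : ℕ) : ZMod P)) (by
    intro a b hab
    simp only at hab
    have := congrArg ZMod.val hab
    rw [ZMod.val_natCast, ZMod.val_natCast, Nat.mod_eq_of_lt (lt_of_lt_of_le a.2 hr),
      Nat.mod_eq_of_lt (lt_of_lt_of_le b.2 hr)] at this
    exact Fin.ext this) (by rw [Fintype.card_fin]; exact hN)
  let ag : Fin N → Fin N → Finset (Fin r) := fun u v => univ.filter (fun a => f u a = f v a)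
  have hags : ∀ u v, ag u v = ag v u := by
    intro u v
    simp only [ag]
    congr 1
    ext a
    exact eq_comm
  have hχp' : ∀ A : Finset (Fin r), ∃ φ : Fin M → Fin q, A.card ≤ s → ∀ x y, x ≠ y → χ x y ∈ A → φ x ≠ φ y := by
    intro A
    by_cases hA : A.card ≤ s
    · obtain ⟨φ, hφ⟩ := hχp A hA
      exact ⟨φ, fun _ => hφ⟩
    · obtain ⟨φ, _⟩ := hχp ∅ (by simp)
      exact ⟨φ, fun h => absurd h hA⟩
  choose Φ hΦ using hχp'
  let lab : Fin N → Fin M → Fin M → Fin r × ZMod P := fun u b b' => (χ b b', f u (χ b b'))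
  let g : Fin N → Fin N → Fin M → Fin M → Fin q × Fin q := fun u v b b' =>
    (min (Φ (ag u v) b) (Φ (ag u v) b'), max (Φ (ag u v) b) (Φ (ag u v) b'))
  have hgood : Good7 (kap7 c lab g) := by
    refine step7 c lab g hcg ?_ ?_
    · intro u
      refine Good7.comp hχg id Function.injective_id ?_
      intro x y z w _ _ h
      exact congrArg Prod.fst h
    · intro u v huv b b' d d' hbb hdd h
      simp only [lab, Prod.mk.injEq] at h
      obtain ⟨h1, h2⟩ := h
      have hmem : χ b b' ∈ ag u v := by
        simp only [ag, mem_filter, mem_univ, true_and]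
        rw [h2, h1]
      have hc' := hf u v huv
      have e1 := hΦ (ag u v) hc' b b' hbb hmem
      have e2 := hΦ (ag u v) hc' d d' hdd (h1 ▸ hmem)
      exact mm_three e1 e2
  have hsym : ∀ p q', kap7 c lab g p q' = kap7 c lab g q' p := by
    intro p q'
    unfold kap7
    by_cases hpq : p.1 = q'.1
    · rw [if_pos hpq, if_pos hpq.symm]
      simp only [lab, hpq, hχs p.2 q'.2]
    · rw [if_neg hpq, if_neg (fun h => hpq h.symm)]
      simp only [g, hags p.1 q'.1, hcs p.1 q'.1]
      rw [mm_comm]
  let e1 : Fin (N * M) ≃ Fin N × Fin M := finProdFinEquiv.symm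
  have hcard : Fintype.card ((Fin r × ZMod P) ⊕ (Fin k × (Fin q × Fin q))) = r * P + k * (q * q) := by
    simp [ZMod.card]
  let e2 : (Fin r × ZMod P) ⊕ (Fin k × (Fin q × Fin q)) ≃ Fin (r * P + k * (q * q)) :=
    Fintype.equivFinOfCardEq hcard
  refine ⟨fun x y => e2 (kap7 c lab g (e1 x) (e1 y)), ?_, ?_⟩
  · intro x y
    exact congrArg e2 (hsym _ _)
  · refine hgood.comp e1 e1.injective ?_
    intro x y z w _ _ h
    exact e2.injective h

theorem Col7.one (k : ℕ) (hk : 1 ≤ k) : Col7 1 k := by
  refine ⟨fun _ _ => ⟨0, hk⟩, fun _ _ => rfl, ?_⟩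
  intro U _
  have := card_le_univ U
  rw [Fintype.card_fin] at this
  omega

theorem Col7.iter {M r s q P T : ℕ} (hB : Block M r s q) (hP : P.Prime) (hr : r ≤ P) (hq : 1 ≤ q)
    (hM : M ^ T ≤ P ^ (s + 1)) : ∀ j ≤ T, Col7 (M ^ j) ((j * (r * P) + 1) * (q * q) ^ j) := by
  intro j
  induction j with
  | zero =>
    intro _
    simp only [pow_zero, zero_mul, zero_add, mul_one]
    exact Col7.one 1 le_rfl
  | succ j ih =>
    intro hj
    have h1 := ih (by omega)
    rcases Nat.eq_zero_or_pos M with hM0 | hM0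
    · subst hM0
      rw [zero_pow (by omega)]
      obtain ⟨c, _, _⟩ := h1
      refine ⟨fun x => x.elim0, fun x => x.elim0, ?_⟩
      intro U _
      have := card_le_univ U
      rw [Fintype.card_fin] at this
      omega
    have h2 := h1.step hB hP hr ((Nat.pow_le_pow_right hM0 (by omega)).trans hM)
    rw [← pow_succ] at h2
    have hle : r * P + (j * (r * P) + 1) * (q * q) ^ j * (q * q) ≤ ((j + 1) * (r * P) + 1) * (q * q) ^ (j + 1) := by
      have h3 : 1 ≤ (q * q) ^ (j + 1) := Nat.one_le_pow _ _ (by positivity)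
      have h4 : r * P ≤ r * P * (q * q) ^ (j + 1) := Nat.le_mul_of_pos_right _ h3
      rw [pow_succ] at h4 ⊢
      nlinarith [h4]
    obtain ⟨c, hc1, hc2⟩ := h2
    refine ⟨fun x y => Fin.castLE hle (c x y), fun x y => congrArg (Fin.castLE hle) (hc1 x y), ?_⟩
    refine hc2.comp id Function.injective_id ?_
    intro x y z w _ _ h
    exact Fin.castLE_injective hle h

theorem Col7.not_forces {N k p k' n : ℕ} (hc : Col7 N k) (hk : k ≤ k') (hp : 2 ≤ p) (hp7 : p ≤ 7)
    (hF : Forces p k' n) : N < n := by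
  classical
  by_contra hn
  push Not at hn
  obtain ⟨c, hc1, hc2⟩ := hc
  obtain ⟨S, hS1, hS2⟩ := hF (fun x y => Fin.castLE hk (c (Fin.castLE hn x) (Fin.castLE hn y)))
    (fun x y => by rw [hc1])
  have hg : Good7 (fun x y : Fin n => Fin.castLE hk (c (Fin.castLE hn x) (Fin.castLE hn y))) := by
    refine hc2.comp (Fin.castLE hn) (Fin.castLE_injective hn) ?_
    intro x y z w _ _ h
    exact Fin.castLE_injective hk h
  have h1 := hg S (by omega)
  have h2 : (labs (fun x y : Fin n => Fin.castLE hk (c (Fin.castLE hn x) (Fin.castLE hn y))) S).card ≤ p - 2 := hS2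
  omega

end Pool.Agent.Helper73_EG
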