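import Mathlib
import Pool.Agent.Helper73_EG.Final
import Pool.Agent.Helper73_EG.Col7
import Pool.Agent.Helper73_EG.Chrom

/-! The Mubayi colouring is a block. -/

namespace Pool.Agent.Helper73_EG

open Finset

/-- the label determines the set of differing positions -/
theorem col_eq_diff {t : ℕ} {x y x' y' : ℕ → ℕ} (h : col t 1 t x y = col t 1 t x' y') {i : ℕ} (hi : i < t) :
    x i = y i ↔ x' i = y' i := by
  rw [← col_none_iff (t := t) (r := 1) hi, ← col_none_iff (t := t) (r := 1) hi, h]

/-- and the pair of letters at the first differing position -/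
theorem col_eq_pair {t : ℕ} {x y x' y' : ℕ → ℕ} (h : col t 1 t x y = col t 1 t x' y') {i : ℕ} (hi : i < t)
    (hd : x i ≠ y i) (ha : ∀ j < i, x j = y j) : ({x i, y i} : Finset ℕ) = {x' i, y' i} := by
  have hd' : x' i ≠ y' i := fun h' => hd ((col_eq_diff h hi).2 h')
  have ha' : ∀ j < i, x' j = y' j := fun j hj => (col_eq_diff h (hj.trans hi)).1 (ha j hj)
  have key : ∀ z w : ℕ → ℕ, z i ≠ w i → (∀ j < i, z j = w j) →
      col t 1 t z w i = some (some ({z i, w i}, win t 0 i z)) := by
    intro z w hzw hag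
    have hlv : lv t 1 i z w = 1 := by
      apply le_antisymm (lv_le _ _ _ _ _)
      rw [← ag_iff le_rfl]
      intro j hj _
      exact hag j hj
    unfold col info
    rw [if_pos hi, if_neg hzw, hlv, if_neg (by norm_num)]
  have h1 := congrFun h i
  rw [key x y hd ha, key x' y' hd' ha'] at h1
  simp only [Option.some.injEq, Prod.mk.injEq] at h1
  exact h1.1

theorem block (m t s k R P : ℕ) (hm : 1 ≤ m) (ht : 1 ≤ t) (hP : P.Prime) (hsP : 2 * s ≤ P)
    (hk : 2 * s ≤ 2 ^ k) (hR : 2 * s < 2 ^ R) :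
    Block (m ^ t) (2 ^ t * (m * m * m)) s (((2 * s + 1) * (P ^ 640) ^ k) ^ R) := by
  classical
  have hm0 : NeZero m := ⟨by omega⟩
  have : Fact P.Prime := ⟨hP⟩
  let e : Fin (m ^ t) ≃ (Fin t → Fin m) := finFunctionFinEquiv.symm
  let X : Fin (m ^ t) → ℕ → ℕ := fun v => ext (e v)
  have hXinj : Function.Injective X := fun v w h => e.injective (ext_inj h)
  have hXbd : ∀ v, Bd m (t ^ 1) (X v) := fun v => by rw [pow_one]; exact ext_bd (by omega) _
  have hXe : ∀ v (i : Fin t), X v i = (e v i : ℕ) := by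
    intro v i
    simp only [X, ext]
    rw [dif_pos i.2]
  let cc : Fin (m ^ t) → Fin (m ^ t) → (ℕ → Option (Option (Finset ℕ × (ℕ → ℕ)))) := fun v w => col t 1 t (X v) (X w)
  let CS : Finset (ℕ → Option (Option (Finset ℕ × (ℕ → ℕ)))) :=
    (univ : Finset (Fin (m ^ t) × Fin (m ^ t))).image (fun z => cc z.1 z.2)
  have hcode : ∀ z z' : Fin (m ^ t) × Fin (m ^ t), codeF m t 1 (X z.1) (X z.2) = codeF m t 1 (X z'.1) (X z'.2) →
      cc z.1 z.2 = cc z'.1 z'.2 := by
    intro z z' h
    have := col_of_code (m := m) ht le_rfl (hXbd _) (hXbd _) (hXbd _) (hXbd _)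
      (code_of_codeF (hXbd _) (hXbd _) (hXbd _) (hXbd _) h)
    rwa [pow_one] at this
  have hCS : CS.card ≤ 2 ^ t * (m * m * m) := by
    have h0 := card_code m t 1
    simp only [pow_one, Nat.sub_self, pow_zero] at h0
    rw [← mul_assoc, ← mul_assoc] at *
    have h0' : Fintype.card ((Fin (t ^ 1) → Bool) × (Fin (t ^ (1 - 1)) → Fin m × Fin m) ×
        (Fin 1 → Fin (t ^ (1 - 1)) → Fin m)) = 2 ^ t * m * m * m := by
      rw [card_code]
      simp only [pow_one, Nat.sub_self, pow_zero]
      ring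
    rw [← h0', ← card_univ]
    refine card_le_card_of_surjOn (fun z => if h : ∃ d : Fin (m ^ t) × Fin (m ^ t), codeF m t 1 (X d.1) (X d.2) = z
        then cc h.choose.1 h.choose.2 else (fun _ => none)) ?_
    intro l hl
    simp only [CS, coe_image, coe_univ, Set.image_univ, Set.mem_range] at hl
    obtain ⟨d, rfl⟩ := hl
    have h3 : ∃ d' : Fin (m ^ t) × Fin (m ^ t), codeF m t 1 (X d'.1) (X d'.2) = codeF m t 1 (X d.1) (X d.2) := ⟨d, rfl⟩
    refine ⟨codeF m t 1 (X d.1) (X d.2), ?_, ?_⟩
    · rw [mem_coe]; exact mem_univ _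
    · simp only
      rw [dif_pos h3]
      exact hcode _ _ h3.choose_spec
  have hrpos : 0 < 2 ^ t * (m * m * m) := by positivity
  obtain ⟨f, hf⟩ : ∃ f : (ℕ → Option (Option (Finset ℕ × (ℕ → ℕ)))) → Fin (2 ^ t * (m * m * m)), Set.InjOn f CS := by
    have h1 : Fintype.card CS ≤ Fintype.card (Fin (2 ^ t * (m * m * m))) := by simpa using hCS
    obtain ⟨ψ⟩ := Function.Embedding.nonempty_of_card_le h1
    refine ⟨fun l => if h : l ∈ CS then ψ ⟨l, h⟩ else ⟨0, hrpos⟩, ?_⟩
    intro a ha b hb hab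
    simp only [mem_coe] at ha hb
    simp only [dif_pos ha, dif_pos hb] at hab
    exact congrArg Subtype.val (ψ.injective hab)
  have hccCS : ∀ v w, cc v w ∈ CS := fun v w => mem_image_of_mem (fun z : Fin (m ^ t) × Fin (m ^ t) => cc z.1 z.2) (mem_univ (v, w))
  have hfcc : ∀ v w v' w', f (cc v w) = f (cc v' w') → cc v w = cc v' w' := by
    intro v w v' w' h
    exact hf (mem_coe.2 (hccCS v w)) (mem_coe.2 (hccCS v' w')) h
  refine ⟨fun v w => f (cc v w), fun v w => by simp only [cc]; rw [col_symm], ?_, ?_⟩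
  · -- good
    intro S hS
    have hgood := good_col t 1 le_rfl t (by rw [pow_one]) (S.image X) (by
      intro x hx i hi
      rw [mem_image] at hx
      obtain ⟨v, _, rfl⟩ := hx
      exact (hXbd v).2 i (by rw [pow_one]; exact hi)) (by
      rw [card_image_of_injective _ hXinj]; omega)
    rw [card_image_of_injective _ hXinj] at hgood
    refine hgood.trans (Nat.add_le_add_right ?_ 1)
    refine card_le_card_of_forall_subsingleton
      (fun l l' => ∃ v w, f (cc v w) = l' ∧ cc v w = l) ?_ ?_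
    · intro l hl
      rw [mem_labs] at hl
      obtain ⟨a, ha, b, hb, hab, rfl⟩ := hl
      rw [mem_image] at ha hb
      obtain ⟨x, hx, rfl⟩ := ha
      obtain ⟨y, hy, rfl⟩ := hb
      have hxy : x ≠ y := fun h => hab (by rw [h])
      exact ⟨f (cc x y), mem_labs.2 ⟨x, hx, y, hy, hxy, rfl⟩, x, y, rfl, rfl⟩
    · intro l' _ l1 hl1 l2 hl2
      obtain ⟨_, x, y, h1, rfl⟩ := hl1
      obtain ⟨_, z, w, h2, rfl⟩ := hl2
      exact hfcc _ _ _ _ (h1.trans h2.symm)
  · -- chromatic number
    intro A hA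
    let ι : Type := {a : Fin (2 ^ t * (m * m * m)) // a ∈ A ∧ ∃ v w, v ≠ w ∧ f (cc v w) = a}
    have hι : Fintype.card ι ≤ s := by
      refine le_trans ?_ hA
      rw [← Fintype.card_coe]
      exact Fintype.card_le_of_injective (fun a : ι => (⟨a.1, a.2.1⟩ : A)) (fun a b h => by
        apply Subtype.ext
        exact congrArg (fun z : A => (z : Fin (2 ^ t * (m * m * m)))) h)
    choose xa ya hxa using fun a : ι => a.2.2
    -- first differing position
    have hpos : ∀ a : ι, ∃ i : Fin t, X (xa a) i ≠ X (ya a) i ∧ ∀ j < (i : ℕ), X (xa a) j = X (ya a) j := by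
      intro a
      have hne : e (xa a) ≠ e (ya a) := fun h => (hxa a).1 (e.injective h)
      have hex : ∃ i : ℕ, ∃ h : i < t, X (xa a) i ≠ X (ya a) i := by
        by_contra hcon
        push Not at hcon
        apply hne
        funext i
        have := hcon i i.2
        rw [hXe, hXe] at this
        exact Fin.ext this
      obtain ⟨h1, h2⟩ := Nat.find_spec hex
      refine ⟨⟨Nat.find hex, h1⟩, h2, ?_⟩
      intro j hj
      by_contra hcon
      exact Nat.find_min hex hj ⟨hj.trans h1, hcon⟩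
    choose pa hpa using hpos
    let la : ι → Bool → ℕ := fun a b => if b then X (ya a) (pa a) else X (xa a) (pa a)
    let D : ι → Finset (ι × Bool) := fun a => univ.filter (fun z => X (xa a) (pa z.1) ≠ X (ya a) (pa z.1))
    have hcardα : Fintype.card (ι × Bool) ≤ 2 * s := by
      rw [Fintype.card_prod, Fintype.card_bool]
      omega
    obtain ⟨em⟩ : Nonempty ((ι × Bool) ↪ ZMod P) := by
      apply Function.Embedding.nonempty_of_card_le
      rw [ZMod.card]
      exact hcardα.trans hsP
    obtain ⟨Φ, hΦ⟩ := exists_chrom D k R P (by omega) (lt_of_le_of_lt hcardα hR) em em.injective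
    obtain ⟨θ⟩ : Nonempty (Colr (Fintype.card (ι × Bool)) k R P ↪ Fin (((2 * s + 1) * (P ^ 640) ^ k) ^ R)) := by
      apply Function.Embedding.nonempty_of_card_le
      rw [card_colr, Fintype.card_fin]
      exact Nat.pow_le_pow_left (Nat.mul_le_mul_right _ (by omega)) _
    let XS : Fin (m ^ t) → Finset (ι × Bool) := fun v => univ.filter (fun z => X v (pa z.1) = la z.1 z.2)
    refine ⟨fun v => θ (Φ (XS v)), ?_⟩
    intro v w hvw hmem hEq
    let a : ι := ⟨f (cc v w), hmem, v, w, hvw, rfl⟩
    have hcc : cc v w = cc (xa a) (ya a) := hfcc _ _ _ _ (hxa a).2.symm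
    have hdiff : ∀ i : Fin t, X v i = X w i ↔ X (xa a) i = X (ya a) i := fun i => col_eq_diff hcc i.2
    refine hΦ a (XS v) (XS w) ?_ ?_ ?_ (θ.injective hEq)
    · ext z
      simp only [XS, D, mem_sdiff, mem_filter, mem_univ, true_and, not_not, ne_eq]
      constructor
      · rintro ⟨h1, h2⟩
        exact ⟨by rw [← (hdiff _).2 h2]; exact h1, h2⟩
      · rintro ⟨h1, h2⟩
        exact ⟨by rw [(hdiff _).2 h2]; exact h1, h2⟩
    · rw [disjoint_left]
      intro z hz1 hz2
      simp only [XS, D, mem_inter, mem_filter, mem_univ, true_and, ne_eq] at hz1 hz2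
      exact hz1.2 ((hdiff _).1 (hz1.1.trans hz2.1.symm))
    · have hp := hpa a
      have hd : X v (pa a) ≠ X w (pa a) := fun h => hp.1 ((hdiff _).1 h)
      have hag : ∀ j < (pa a : ℕ), X v j = X w j := by
        intro j hj
        exact (hdiff ⟨j, hj.trans (pa a).2⟩).2 (hp.2 j hj)
      have hpair := col_eq_pair hcc (pa a).2 hd hag
      have hmv : X v (pa a) ∈ ({X (xa a) (pa a), X (ya a) (pa a)} : Finset ℕ) := by
        rw [← hpair]; exact mem_insert_self _ _
      rw [mem_insert, mem_singleton] at hmv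
      rcases hmv with h1 | h1
      · refine ⟨(a, false), ?_⟩
        simp only [XS, D, la, mem_inter, mem_filter, mem_univ, true_and, ne_eq]
        exact ⟨by simpa using h1, hp.1⟩
      · refine ⟨(a, true), ?_⟩
        simp only [XS, D, la, mem_inter, mem_filter, mem_univ, true_and, ne_eq]
        exact ⟨by simpa using h1, hp.1⟩

end Pool.Agent.Helper73_EG
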