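import Mathlib
import Pool.Agent.Helper73_EG.MBlock

/-! The lower bound `log F(p, k) ≥ c (log k)^3 / (log log k)^3` for `4 ≤ p ≤ 7`. -/

namespace Pool.Agent.Helper73_EG

open Finset

theorem lower7 {l a T p k n : ℕ} (hl : 1 ≤ l) (hla : l ≤ 2 ^ a) (ha : 1 ≤ a) (hT : T * a ^ 3 ≤ l)
    (hk : 2 ^ (61500 * l) ≤ k) (hp : 2 ≤ p) (hp7 : p ≤ 7) (hF : Forces p k n) : 2 ^ (l * l * T) < n := by
  have hTl : T ≤ l := by
    have : T * 1 ≤ T * a ^ 3 := Nat.mul_le_mul_left _ (Nat.one_le_pow _ _ (by omega))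
    omega
  have hs2 : 2 * (l * l) ≤ 2 ^ (2 * a + 1) := by
    calc 2 * (l * l) ≤ 2 * (2 ^ a * 2 ^ a) := Nat.mul_le_mul_left _ (Nat.mul_le_mul hla hla)
      _ = 2 ^ (2 * a + 1) := by rw [← pow_add, ← two_mul, pow_succ]; ring
  have hs2' : 2 * (l * l) < 2 ^ (2 * a + 2) := by
    calc 2 * (l * l) ≤ 2 ^ (2 * a + 1) := hs2
      _ < 2 ^ (2 * a + 2) := Nat.pow_lt_pow_right (by norm_num) (by omega)
  -- the small prime
  obtain ⟨P1, hP1, hP1l, hP1u⟩ := Nat.exists_prime_lt_and_le_two_mul (2 ^ (2 * a + 1)) (by positivity)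
  have hP1u' : P1 ≤ 2 ^ (2 * a + 2) := by
    calc P1 ≤ 2 * 2 ^ (2 * a + 1) := hP1u
      _ = 2 ^ (2 * a + 2) := by ring
  -- the large prime
  obtain ⟨P, hP, hPl, hPu⟩ := Nat.exists_prime_lt_and_le_two_mul (2 ^ (4 * l)) (by positivity)
  have hPu' : P ≤ 2 ^ (4 * l + 1) := by
    calc P ≤ 2 * 2 ^ (4 * l) := hPu
      _ = 2 ^ (4 * l + 1) := by ring
  have hB := block (2 ^ l) l (l * l) (2 * a + 1) (2 * a + 2) P1 Nat.one_le_two_pow hl hP1
    (hs2.trans hP1l.le) hs2 hs2'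
  have hr : 2 ^ l * (2 ^ l * 2 ^ l * 2 ^ l) = 2 ^ (4 * l) := by
    rw [← pow_add, ← pow_add, ← pow_add]; congr 1; ring
  rw [hr, ← pow_mul] at hB
  set q := ((2 * (l * l) + 1) * (P1 ^ 640) ^ (2 * a + 1)) ^ (2 * a + 2) with hq
  have hq1 : 1 ≤ q := by
    rw [hq]
    have := hP1.pos
    exact Nat.one_le_pow _ _ (by positivity)
  have hqu : q ≤ 2 ^ (30736 * a ^ 3) := by
    calc q ≤ (2 ^ (2 * a + 2) * ((2 ^ (2 * a + 2)) ^ 640) ^ (2 * a + 1)) ^ (2 * a + 2) := by
          rw [hq]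
          exact Nat.pow_le_pow_left (Nat.mul_le_mul (by omega) (Nat.pow_le_pow_left (Nat.pow_le_pow_left hP1u' _) _)) _
      _ = 2 ^ (((2 * a + 2) + (2 * a + 2) * 640 * (2 * a + 1)) * (2 * a + 2)) := by
          rw [← pow_mul, ← pow_mul, ← pow_add, ← pow_mul]
          congr 1; ring
      _ ≤ 2 ^ (30736 * a ^ 3) := by
          apply Nat.pow_le_pow_right (by norm_num)
          obtain ⟨b, rfl⟩ : ∃ b, a = b + 1 := ⟨a - 1, by omega⟩
          ring_nf
          nlinarith [sq_nonneg b, Nat.zero_le b, Nat.zero_le (b ^ 2), Nat.zero_le (b ^ 3)]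
  have hC := Col7.iter (T := T) hB hP hPl.le hq1 (by
    rw [← pow_mul]
    calc 2 ^ (l * l * T) ≤ 2 ^ (4 * l * (l * l + 1)) := by
          apply Nat.pow_le_pow_right (by norm_num)
          nlinarith [Nat.mul_le_mul_left (l * l) hTl, Nat.zero_le (l * l * l)]
      _ = (2 ^ (4 * l)) ^ (l * l + 1) := by rw [← pow_mul]
      _ ≤ P ^ (l * l + 1) := Nat.pow_le_pow_left hPl.le _) T le_rfl
  rw [← pow_mul] at hC
  refine Col7.not_forces hC (le_trans ?_ hk) hp hp7 hF
  have h1 : T * (2 ^ (4 * l) * P) + 1 ≤ 2 ^ (11 * l) := by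
    have h2 : T ≤ 2 ^ l := hTl.trans Nat.lt_two_pow_self.le
    calc T * (2 ^ (4 * l) * P) + 1 ≤ 2 ^ l * (2 ^ (4 * l) * 2 ^ (4 * l + 1)) + 1 := by gcongr
      _ = 2 ^ (9 * l + 1) + 1 := by
          rw [← pow_add, ← pow_add]; congr 2; ring
      _ ≤ 2 ^ (9 * l + 2) := by
          have h3 : 1 ≤ 2 ^ (9 * l + 1) := Nat.one_le_two_pow
          have h4 : 2 ^ (9 * l + 2) = 2 * 2 ^ (9 * l + 1) := by ring
          omega
      _ ≤ 2 ^ (11 * l) := Nat.pow_le_pow_right (by norm_num) (by omega)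
  have h5 : (q * q) ^ T ≤ 2 ^ (61472 * l) := by
    calc (q * q) ^ T ≤ (2 ^ (30736 * a ^ 3) * 2 ^ (30736 * a ^ 3)) ^ T := by gcongr
      _ = 2 ^ (61472 * (T * a ^ 3)) := by
          rw [← pow_add, ← pow_mul]; congr 1; ring
      _ ≤ 2 ^ (61472 * l) := Nat.pow_le_pow_right (by norm_num) (Nat.mul_le_mul_left _ hT)
  calc (T * (2 ^ (4 * l) * P) + 1) * (q * q) ^ T ≤ 2 ^ (11 * l) * 2 ^ (61472 * l) := Nat.mul_le_mul h1 h5
    _ = 2 ^ (61483 * l) := by rw [← pow_add]; congr 1; ring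
    _ ≤ 2 ^ (61500 * l) := Nat.pow_le_pow_right (by norm_num) (by omega)

theorem cube_le (b : ℕ) : (b + 12) ^ 3 ≤ 2 ^ (b + 11) := by
  induction b with
  | zero => norm_num
  | succ b ih =>
    calc (b + 1 + 12) ^ 3 ≤ 2 * (b + 12) ^ 3 := by ring_nf; nlinarith [Nat.zero_le b, Nat.zero_le (b ^ 2), Nat.zero_le (b ^ 3)]
      _ ≤ 2 * 2 ^ (b + 11) := Nat.mul_le_mul_left _ ih
      _ = 2 ^ (b + 1 + 11) := by ring

/-- **Main theorem for `4 ≤ p ≤ 7`.** -/
theorem main7 : ∃ c : ℝ, 0 < c ∧ ∃ k₀ : ℕ, ∀ k : ℕ, k₀ ≤ k → ∀ p : ℕ, 4 ≤ p → p ≤ 7 → ∀ n : ℕ, Forces p k n →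
    Real.exp (c * (Real.log k) ^ 3 / (Real.log (Real.log k)) ^ 3) ≤ n := by
  have hl2 : 0 < Real.log 2 := Real.log_pos (by norm_num)
  have hl2' : Real.log 2 < 0.6931471808 := Real.log_two_lt_d9
  have hl2'' : 0.6931471803 < Real.log 2 := Real.log_two_gt_d9
  refine ⟨Real.log 2 / (16 * (Real.log 2 * 123000) ^ 3), by positivity, 2 ^ (61500 * 4096), ?_⟩
  intro k hk p hp hp7 n hF
  set L := Real.log k with hL
  set x := L / Real.log 2 with hx
  have hkpos : (0 : ℝ) < k := by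
    have : 0 < k := lt_of_lt_of_le (by positivity) hk
    exact_mod_cast this
  have hx0 : (61500 * 4096 : ℝ) ≤ x := by
    rw [hx, le_div_iff₀ hl2, hL]
    have h1 : Real.log ((2 ^ (61500 * 4096) : ℕ) : ℝ) ≤ Real.log k := by
      apply Real.log_le_log (by positivity)
      exact_mod_cast hk
    rw [Nat.cast_pow, Real.log_pow] at h1
    push_cast at h1
    linarith
  set l := ⌊x / 61500⌋₊ with hldef
  have hlx : (l : ℝ) ≤ x / 61500 := Nat.floor_le (by positivity)
  have hlx2 : x / 61500 < l + 1 := Nat.lt_floor_add_one _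
  have hl4 : 4096 ≤ l := by
    rw [hldef]
    apply Nat.le_floor
    push_cast
    rw [le_div_iff₀ (by norm_num)]
    linarith
  have hl4R : (4096 : ℝ) ≤ l := by exact_mod_cast hl4
  set a := Nat.clog 2 l with hadef
  have hla : l ≤ 2 ^ a := Nat.le_pow_clog (by norm_num) l
  have ha12 : 12 ≤ a := by
    by_contra hcon
    have h1 : 2 ^ a ≤ 2 ^ 11 := Nat.pow_le_pow_right (by norm_num) (by omega)
    have : (2 : ℕ) ^ 11 = 2048 := by norm_num
    omega
  have hal : 2 ^ (a - 1) < l := by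
    have := Nat.pow_pred_clog_lt_self (b := 2) (by norm_num) (x := l) (by omega)
    simpa [hadef, Nat.pred_eq_sub_one] using this
  have ha3 : a ^ 3 ≤ l := by
    obtain ⟨b, hb⟩ : ∃ b, a = b + 12 := ⟨a - 12, by omega⟩
    rw [hb]
    have h1 := cube_le b
    rw [hb] at hal
    have h2 : b + 12 - 1 = b + 11 := by omega
    rw [h2] at hal
    omega
  set T := l / a ^ 3 with hTdef
  have ha3pos : 0 < a ^ 3 := by positivity
  have hT : T * a ^ 3 ≤ l := Nat.div_mul_le_self _ _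
  have hT1 : 1 ≤ T := (Nat.one_le_div_iff ha3pos).2 ha3
  have hT2 : l < (T + 1) * a ^ 3 := by
    rw [mul_comm]
    exact Nat.lt_mul_div_succ l ha3pos
  have hkl : 2 ^ (61500 * l) ≤ k := by
    have h1 : Real.log ((2 ^ (61500 * l) : ℕ) : ℝ) ≤ Real.log k := by
      rw [Nat.cast_pow, Real.log_pow]
      push_cast
      have h2 : 61500 * (l : ℝ) ≤ x := by linarith
      have h3 : x * Real.log 2 = L := by rw [hx]; field_simp
      calc 61500 * (l : ℝ) * Real.log 2 ≤ x * Real.log 2 := by gcongr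
        _ = Real.log k := h3
    rw [Real.log_le_log_iff (by positivity) hkpos] at h1
    exact_mod_cast h1
  have hmain := lower7 (by omega) hla (by omega) hT hkl (by omega) hp7 hF
  have hnpos : (0 : ℝ) < n := by
    have : 0 < n := lt_of_le_of_lt (Nat.zero_le _) hmain
    exact_mod_cast this
  rw [← Real.le_log_iff_exp_le hnpos]
  -- bounds
  have hLx : L = x * Real.log 2 := by rw [hx]; field_simp
  have hlogn : (l : ℝ) * l * T * Real.log 2 ≤ Real.log n := by
    have h1 : Real.log ((2 ^ (l * l * T) : ℕ) : ℝ) ≤ Real.log n := by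
      apply Real.log_le_log (by positivity)
      exact_mod_cast hmain.le
    rw [Nat.cast_pow, Real.log_pow] at h1
    push_cast at h1
    exact h1
  -- a ≤ 2 log L
  set y := Real.log L with hy
  have hLbig : (1000 : ℝ) ≤ L := by rw [hLx]; nlinarith
  have hy1 : 1 ≤ y := by
    rw [hy, Real.le_log_iff_exp_le (by linarith)]
    have := Real.exp_one_lt_d9
    linarith
  have hay : (a : ℝ) ≤ 2 * y := by
    have h1 : ((2 : ℝ)) ^ (a - 1) ≤ x / 2 := by
      have h2 : ((2 ^ (a - 1) : ℕ) : ℝ) ≤ l := by exact_mod_cast hal.le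
      push_cast at h2
      linarith
    have h2 : ((2 : ℝ)) ^ a ≤ x := by
      have : (2 : ℝ) ^ a = 2 * 2 ^ (a - 1) := by
        rw [← pow_succ']; congr 1; omega
      rw [this]; linarith
    have h3 : (a : ℝ) * Real.log 2 ≤ Real.log x := by
      rw [← Real.log_pow]
      exact Real.log_le_log (by positivity) h2
    have h4 : Real.log x = y - Real.log (Real.log 2) := by
      rw [hx, Real.log_div (by linarith) hl2.ne', hy]
    have h5 : - Real.log (Real.log 2) ≤ 0.385 := by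
      have h6 : Real.log (1 / Real.log 2) ≤ 1 / Real.log 2 - 1 := Real.log_le_sub_one_of_pos (by positivity)
      rw [Real.log_div (by norm_num) hl2.ne', Real.log_one, zero_sub] at h6
      have h7 : 1 / Real.log 2 ≤ 1.4427 := by
        rw [div_le_iff₀ hl2]; nlinarith
      -- use a sharper bound through the square root: log (1/log 2) ≤ 2 (sqrt(1/log 2) - 1)
      have h8 : Real.log (1 / Real.log 2) = 2 * Real.log (Real.sqrt (1 / Real.log 2)) := by
        rw [Real.log_sqrt (by positivity)]; ring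
      have h9 : Real.sqrt (1 / Real.log 2) ≤ 1.2012 := by
        rw [Real.sqrt_le_left (by norm_num)]
        refine h7.trans (by norm_num)
      have h10 : Real.log (Real.sqrt (1 / Real.log 2)) ≤ Real.sqrt (1 / Real.log 2) - 1 :=
        Real.log_le_sub_one_of_pos (Real.sqrt_pos.2 (by positivity))
      have h11 : Real.log (1 / Real.log 2) = - Real.log (Real.log 2) := by
        rw [Real.log_div (by norm_num) hl2.ne', Real.log_one, zero_sub]
      have h13 : Real.log (Real.sqrt (1 / Real.log 2)) = 2 * Real.log (Real.sqrt (Real.sqrt (1 / Real.log 2))) := by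
        rw [Real.log_sqrt (Real.sqrt_nonneg _)]; ring
      have h14 : Real.sqrt (Real.sqrt (1 / Real.log 2)) ≤ 1.0961 := by
        rw [Real.sqrt_le_left (by norm_num)]
        refine h9.trans (by norm_num)
      have h15 : Real.log (Real.sqrt (Real.sqrt (1 / Real.log 2))) ≤ Real.sqrt (Real.sqrt (1 / Real.log 2)) - 1 :=
        Real.log_le_sub_one_of_pos (Real.sqrt_pos.2 (Real.sqrt_pos.2 (by positivity)))
      rw [← h11, h8, h13]
      linarith
    have h6 : (a : ℝ) * Real.log 2 ≤ y + 0.385 := by linarith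
    have h7 : (a : ℝ) * 0.6931471803 ≤ y + 0.385 * y := by nlinarith
    nlinarith
  have hx2 : x / 123000 ≤ l := by
    have : x / 61500 ≤ 2 * l := by linarith
    linarith
  have hTl : (l : ℝ) / (2 * (a : ℝ) ^ 3) ≤ T := by
    have h1 : (l : ℝ) ≤ (T + 1) * (a : ℝ) ^ 3 := by exact_mod_cast hT2.le
    have h2 : (1 : ℝ) ≤ T := by exact_mod_cast hT1
    have h3 : (0 : ℝ) < (a : ℝ) ^ 3 := by exact_mod_cast ha3pos
    rw [div_le_iff₀ (by positivity)]
    nlinarith
  have hapos : (0 : ℝ) < a := by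
    have : 0 < a := by omega
    exact_mod_cast this
  calc Real.log 2 / (16 * (Real.log 2 * 123000) ^ 3) * L ^ 3 / y ^ 3
      = Real.log 2 * ((x / 123000) ^ 3 / (2 * (2 * y) ^ 3)) := by
        rw [hLx]; field_simp; ring
    _ ≤ Real.log 2 * ((l : ℝ) ^ 3 / (2 * (a : ℝ) ^ 3)) := by gcongr
    _ = (l : ℝ) * l * ((l : ℝ) / (2 * (a : ℝ) ^ 3)) * Real.log 2 := by ring
    _ ≤ (l : ℝ) * l * T * Real.log 2 := by gcongr
    _ ≤ Real.log n := hlogn

end Pool.Agent.Helper73_EG
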